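import Pool.Agent.W877.ST.Rigid
import Pool.Agent.W185.SRG.Algebra

/-!
# Gauge transformations do not remove the twist
-/

set_option autoImplicit false
set_option linter.unusedSectionVars false

namespace Pool.Agent.W877.ST

open Finset Pool.Agent.W185.SRG Pool.Agent.W185.LSQ

section

variable {N : ℕ} {Ed A : Type} [Fintype Ed] [DecidableEq Ed]
  [AddCommGroup A] [Module (ZMod 2) A] [Fintype A] [DecidableEq A]
  {st : Ed → Fin N × Fin N} {e : Fin N → A} {o : A} {bs : Fin N}
  {τ τ' : ZMod 2}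

/-- The hypotheses on the base vectors. -/
structure Sys (st : Ed → Fin N × Fin N) (e : Fin N → A) (o : A)
    (lam : Fin N → A →ₗ[ZMod 2] ZMod 2) : Prop where
  hd : IsDual e lam
  ho : ∀ i, lam i o = 0
  ho0 : o ≠ 0
  hinj : Function.Injective st
  hlt : ∀ ε, (st ε).1 < (st ε).2

variable {lam : Fin N → A →ₗ[ZMod 2] ZMod 2}

theorem Sys.e_ne_o (hs : Sys st e o lam) (i : Fin N) : e i ≠ o := by
  intro h
  have h1 := congrArg (lam i) h
  rw [hs.hd, if_pos rfl, hs.ho] at h1
  exact absurd h1 (by decide)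

theorem Sys.dg_o (hs : Sys st e o lam) (i : Fin N) : ¬ Dg (e i) o := by
  rintro (h | h | h)
  · exact hs.hd.ne_zero i h
  · exact hs.ho0 h
  · exact hs.e_ne_o i h

theorem Sys.dg_e (hs : Sys st e o lam) (ε : Ed) : ¬ Dg (e (st ε).1) (e (st ε).2) := by
  rintro (h | h | h)
  · exact hs.hd.ne_zero _ h
  · exact hs.hd.ne_zero _ h
  · exact (hs.hlt ε).ne (hs.hd.inj h)

theorem Sys.t1_inj (hs : Sys st e o lam) {ε ε' : Ed} (h : t1 st e ε = t1 st e ε') : ε = ε' := by
  have h1 : e (st ε).1 + e (st ε).2 ∈ t1 st e ε' := by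
    rw [← h]
    exact mem_ln.2 (Or.inr (Or.inr rfl))
  rcases mem_ln.1 h1 with h2 | h2 | h2
  · exact absurd h2.symm (hs.hd.ne_add (hs.hlt ε).ne)
  · exact absurd h2.symm (hs.hd.ne_add (hs.hlt ε).ne)
  · have h3 := hs.hd.pair (hs.hlt ε) (hs.hlt ε') h2
    exact hs.hinj (Prod.ext h3.1 h3.2)

theorem Sys.t1_ne_t2 (hs : Sys st e o lam) (ε : Ed) (i : Fin N) : t1 st e ε ≠ t2 e o i := by
  intro h
  have h1 : o ∈ t1 st e ε := by
    rw [h]
    exact mem_ln.2 (Or.inr (Or.inl rfl))
  rcases mem_ln.1 h1 with h2 | h2 | h2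
  · exact hs.e_ne_o _ h2.symm
  · exact hs.e_ne_o _ h2.symm
  · have h3 := congrArg (lam (st ε).1) h2
    rw [hs.ho, map_add, hs.hd, hs.hd, if_pos rfl, if_neg (hs.hlt ε).ne] at h3
    exact absurd h3 (by decide)

theorem Sys.t2_inj (hs : Sys st e o lam) {i j : Fin N} (h : t2 e o i = t2 e o j) : i = j := by
  have h1 : e i ∈ t2 e o j := by
    rw [← h]
    exact mem_ln.2 (Or.inl rfl)
  rcases mem_ln.1 h1 with h2 | h2 | h2
  · exact hs.hd.inj h2
  · exact absurd h2 (hs.e_ne_o i)
  · by_contra hne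
    have h3 := congrArg (lam j) h2
    rw [map_add, hs.ho, hs.hd, hs.hd, if_pos rfl, if_neg (Ne.symm hne)] at h3
    exact absurd h3 (by decide)

theorem Sys.mu_t1 (hs : Sys st e o lam) (ε : Ed) (w : A) (c : Ed → ZMod 2) :
    mu st e o (t1 st e ε) w c = if w = e (st ε).1 + e (st ε).2 then c ε else 0 := by
  unfold mu
  have h1 : (∑ i, if t1 st e ε = t2 e o i ∧ w = e i then inc st i c else 0) = 0 :=
    Finset.sum_eq_zero fun i _ => if_neg fun h => hs.t1_ne_t2 ε i h.1
  rw [h1, add_zero, Finset.sum_eq_single ε]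
  · simp
  · intro ε' _ hne
    exact if_neg fun h => hne (hs.t1_inj h.1).symm
  · intro h
    exact absurd (Finset.mem_univ ε) h

theorem Sys.mu_t2 (hs : Sys st e o lam) (i : Fin N) (w : A) (c : Ed → ZMod 2) :
    mu st e o (t2 e o i) w c = if w = e i then inc st i c else 0 := by
  unfold mu
  have h1 : (∑ ε, if t2 e o i = t1 st e ε ∧ w = e (st ε).1 + e (st ε).2 then c ε else 0) = 0 :=
    Finset.sum_eq_zero fun ε _ => if_neg fun h => hs.t1_ne_t2 ε i h.1.symm
  rw [h1, zero_add, Finset.sum_eq_single i]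
  · simp
  · intro j _ hne
    exact if_neg fun h => hne (hs.t2_inj h.1).symm
  · intro h
    exact absurd (Finset.mem_univ i) h

theorem Sys.msum_t1 (hs : Sys st e o lam) (ε : Ed) (c d : Ed → ZMod 2) :
    msum st e o (e (st ε).1) (e (st ε).2) c d = c ε + d ε := by
  unfold msum
  have hne := (hs.hlt ε).ne
  rw [show ln (e (st ε).1) (e (st ε).2) = t1 st e ε from rfl, hs.mu_t1, hs.mu_t1, hs.mu_t1,
    if_neg (hs.hd.ne_add hne), if_neg (hs.hd.ne_add hne), if_pos rfl, zero_add, zero_add]
  rfl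

theorem Sys.msum_t2 (hs : Sys st e o lam) (i : Fin N) (c d : Ed → ZMod 2) :
    msum st e o (e i) o c d = inc st i c := by
  unfold msum
  have h1 : e i + o ≠ e i := fun h => hs.ho0 (add_eq_left.1 h)
  rw [show ln (e i) o = t2 e o i from rfl, hs.mu_t2, hs.mu_t2, hs.mu_t2,
    if_pos rfl, if_neg (hs.e_ne_o i).symm, if_neg h1, add_zero, add_zero]

theorem mu_not_special {l : Finset A} (h1 : ∀ ε, l ≠ t1 st e ε) (h2 : ∀ i, l ≠ t2 e o i)
    (w : A) (c : Ed → ZMod 2) : mu st e o l w c = 0 := by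
  unfold mu
  rw [Finset.sum_eq_zero fun ε _ => if_neg fun h => h1 ε h.1,
    Finset.sum_eq_zero fun i _ => if_neg fun h => h2 i h.1, add_zero]

theorem no_gaugeS (hs : Sys st e o lam) (γ : ZMod 2)
    (hA : 3 + 9 * (Fintype.card Ed + N) < Fintype.card A)
    (m : A → Ed → ZMod 2) (s : A → ZMod 2)
    (hsum : ∀ x y, ¬ Dg x y → s x + s y + s (x + y) =
      msum st e o x y (m x) (m y) + (if ln x y = t2 e o bs then γ else 0)) : γ = 0 := by
  classical
  let SL : Finset (Finset A) := Finset.univ.image (t1 st e) ∪ Finset.univ.image (t2 e o)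
  have hSL : SL.card ≤ Fintype.card Ed + N := by
    refine (Finset.card_union_le _ _).trans (Nat.add_le_add ?_ ?_)
    · exact Finset.card_image_le
    · refine Finset.card_image_le.trans ?_
      simp
  have hSLc : ∀ l ∈ SL, l.card ≤ 3 := by
    intro l hl
    have : ∀ x y : A, (ln x y).card ≤ 3 := fun x y => Finset.card_le_three
    rcases Finset.mem_union.1 hl with h | h
    · obtain ⟨ε, -, rfl⟩ := Finset.mem_image.1 h
      exact this _ _
    · obtain ⟨i, -, rfl⟩ := Finset.mem_image.1 h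
      exact this _ _
  -- the ordinary lines
  have hdef : ∀ x y, ¬ Dg x y → ln x y ∉ SL → s x + s y + s (x + y) = 0 := by
    intro x y hd hl
    have h1 : ∀ ε, ln x y ≠ t1 st e ε := fun ε h =>
      hl (Finset.mem_union_left _ (Finset.mem_image.2 ⟨ε, Finset.mem_univ _, h.symm⟩))
    have h2 : ∀ i, ln x y ≠ t2 e o i := fun i h =>
      hl (Finset.mem_union_right _ (Finset.mem_image.2 ⟨i, Finset.mem_univ _, h.symm⟩))
    rw [hsum x y hd, if_neg (h2 bs)]
    unfold msum
    rw [mu_not_special h1 h2, mu_not_special h1 h2, mu_not_special h1 h2]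
    simp
  -- all lines
  have hall : ∀ x y, ¬ Dg x y → s x + s y + s (x + y) = 0 := by
    intro x y hd
    let U : Finset A := SL.biUnion id
    have hU : U.card ≤ 3 * (Fintype.card Ed + N) := by
      have h1 : U.card ≤ SL.card * 3 := Finset.card_biUnion_le_card_mul _ _ _ hSLc
      omega
    obtain ⟨d, hdn⟩ : ∃ d, d ∉ ({0, y, x + y} : Finset A) ∪ (U.image (fun z => y + z) ∪ U) := by
      by_contra hcon
      push Not at hcon
      have h5 := Finset.card_le_card (fun d _ => hcon d :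
        (Finset.univ : Finset A) ⊆ ({0, y, x + y} : Finset A) ∪
          (U.image (fun z => y + z) ∪ U))
      have h6 : (U.image (fun z => y + z)).card ≤ U.card := Finset.card_image_le
      have h7 := Finset.card_union_le ({0, y, x + y} : Finset A) (U.image (fun z => y + z) ∪ U)
      have h8 := Finset.card_union_le (U.image (fun z => y + z)) U
      have h9 : ({0, y, x + y} : Finset A).card ≤ 3 := Finset.card_le_three
      rw [Finset.card_univ] at h5
      omega
    simp only [Finset.mem_union, Finset.mem_insert, Finset.mem_singleton, not_or,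
      Finset.mem_image, not_exists, not_and] at hdn
    obtain ⟨⟨d0, d1, d2⟩, d3, d4⟩ := hdn
    have hyd : y + d ∉ U := fun h => d3 (y + d) h (add_add_two y d)
    have hlU : ∀ l, (∃ z, z ∈ l ∧ z ∉ U) → l ∉ SL := by
      rintro l ⟨z, hz, hzU⟩ hl
      exact hzU (Finset.mem_biUnion.2 ⟨l, hl, hz⟩)
    have hy0 : y ≠ 0 := fun h => hd (Or.inr (Or.inl h))
    have hx0 : x ≠ 0 := fun h => hd (Or.inl h)
    have hxy : x ≠ y := fun h => hd (Or.inr (Or.inr h))
    have c1 := hdef x (y + d) (by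
      rintro (h | h | h)
      · exact hx0 h
      · exact d1 (eq_of_add_eq_zero_two h).symm
      · apply d2
        rw [h, add_comm y d, add_assoc, two_self, add_zero])
      (hlU _ ⟨y + d, mem_ln.2 (Or.inr (Or.inl rfl)), hyd⟩)
    have c2 := hdef y d (by
      rintro (h | h | h)
      · exact hy0 h
      · exact d0 h
      · exact d1 h.symm)
      (hlU _ ⟨d, mem_ln.2 (Or.inr (Or.inl rfl)), d4⟩)
    have c3 := hdef (x + y) d (by
      rintro (h | h | h)
      · exact hxy (eq_of_add_eq_zero_two h)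
      · exact d0 h
      · exact d2 h.symm)
      (hlU _ ⟨d, mem_ln.2 (Or.inr (Or.inl rfl)), d4⟩)
    rw [add_assoc x y d] at c3
    calc s x + s y + s (x + y) =
        (s x + s y + s (x + y)) + (s (y + d) + s (y + d)) + (s (x + (y + d)) + s (x + (y + d))) +
          (s d + s d) := by simp [z2_self]
      _ = (s x + s (y + d) + s (x + (y + d))) + (s y + s d + s (y + d)) +
          (s (x + y) + s d + s (x + (y + d))) := by abel
      _ = 0 := by rw [c1, c2, c3, add_zero, add_zero]
  have hT : ∀ ε, m (e (st ε).1) ε + m (e (st ε).2) ε = 0 := by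
    intro ε
    have h1 := hsum _ _ (hs.dg_e ε)
    rw [hall _ _ (hs.dg_e ε), hs.msum_t1, show ln (e (st ε).1) (e (st ε).2) = t1 st e ε from rfl,
      if_neg (hs.t1_ne_t2 ε bs), add_zero] at h1
    exact h1.symm
  have hrow : ∀ i, inc st i (m (e i)) + (if i = bs then γ else 0) = 0 := by
    intro i
    have h1 := hsum _ _ (hs.dg_o i)
    rw [hall _ _ (hs.dg_o i), hs.msum_t2, show ln (e i) o = t2 e o i from rfl] at h1
    by_cases hi : i = bs
    · rw [if_pos hi]
      rw [if_pos (by rw [hi])] at h1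
      exact h1.symm
    · rw [if_neg hi]
      rw [if_neg (fun h => hi (hs.t2_inj h))] at h1
      exact h1.symm
  have hsum2 : ∑ i, (inc st i (m (e i)) + (if i = bs then γ else 0)) = 0 :=
    Finset.sum_eq_zero fun i _ => hrow i
  have hinc : ∑ i, inc st i (m (e i)) = 0 := by
    unfold inc
    rw [Finset.sum_comm]
    refine Finset.sum_eq_zero fun ε _ => ?_
    rw [Finset.sum_add_distrib, Finset.sum_ite_eq, Finset.sum_ite_eq,
      if_pos (Finset.mem_univ _), if_pos (Finset.mem_univ _), hT ε]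
  rw [Finset.sum_add_distrib, hinc, zero_add, Finset.sum_ite_eq',
    if_pos (Finset.mem_univ _)] at hsum2
  exact hsum2

theorem no_hm (hs : Sys st e o lam) (ε0 : Ed) {h : Finset A → ZMod 2}
    {g : Q2 Ed A → Q2 Ed A} (hg : Function.Injective g) (hi : Hm st e o bs h τ τ' g)
    (hfix : ∀ R, (g R).1 = R.1)
    (hA : 3 + 9 * (Fintype.card Ed + N) < Fintype.card A) : τ = τ' := by
  let G : A → (Ed → ZMod 2) × ZMod 2 → (Ed → ZMod 2) × ZMod 2 := fun x p => (g (x, p)).2
  let ι : ZMod 2 → (Ed → ZMod 2) × ZMod 2 := fun t => (0, t)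
  have hG : ∀ x p, g (x, p) = (x, G x p) := fun x p => Prod.ext (hfix (x, p)) rfl
  have hadd : ∀ x p q, G x (p + q) = G x p + G 0 q := by
    intro x p q
    have h1 := hi.2 (x, p) (0, q)
    rw [ops_dg (Or.inr (Or.inl rfl)), hG x p, hG 0 q, ops_dg (Or.inr (Or.inl rfl))] at h1
    have h2 : ((x, p) : Q2 Ed A) + (0, q) = (x, p + q) := Prod.ext (add_zero x) rfl
    rw [h2] at h1
    exact congrArg Prod.snd h1
  have hG0 : G 0 0 = 0 := congrArg Prod.snd hi.1
  have hx0 : ∀ x p, G x p = G x 0 + G 0 p := by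
    intro x p
    rw [← hadd, zero_add]
  have hmain : ∀ x y, ¬ Dg x y → ∀ p q, G (x + y) 0 +
      G 0 (ι (FS st e o bs h τ x y p.1 q.1)) = G x 0 + G y 0 +
      ι (FS st e o bs h τ' x y (G x p).1 (G y q).1) := by
    intro x y _ p q
    have h1 := congrArg Prod.snd (hi.2 (x, p) (y, q))
    have h2 : ops st e o bs h τ (x, p) (y, q) =
        (x + y, p + q + ι (FS st e o bs h τ x y p.1 q.1)) := by
      refine Prod.ext rfl (Prod.ext ?_ rfl)
      show p.1 + q.1 = p.1 + q.1 + 0
      rw [add_zero]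
    have h3 : (ops st e o bs h τ' (x, G x p) (y, G y q)).2 =
        G x p + G y q + ι (FS st e o bs h τ' x y (G x p).1 (G y q).1) := by
      refine Prod.ext ?_ rfl
      show (G x p).1 + (G y q).1 = (G x p).1 + (G y q).1 + 0
      rw [add_zero]
    rw [h2, hG x p, hG y q, h3] at h1
    have h4 : G (x + y) (p + q + ι (FS st e o bs h τ x y p.1 q.1)) = G (x + y) 0 + G 0 p +
        G 0 q + G 0 (ι (FS st e o bs h τ x y p.1 q.1)) := by
      rw [hadd, hadd, ← hx0]
    have h5 : G (x + y) (p + q + ι (FS st e o bs h τ x y p.1 q.1)) =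
        G x p + G y q + ι (FS st e o bs h τ' x y (G x p).1 (G y q).1) := h1
    rw [h4, hx0 x p, hx0 y q] at h5
    have h6 := congrArg (fun z => z + (G 0 p + G 0 q)) h5
    change G (x + y) 0 + G 0 p + G 0 q + G 0 (ι (FS st e o bs h τ x y p.1 q.1)) +
        (G 0 p + G 0 q) = _ at h6
    have h7 : G (x + y) 0 + G 0 p + G 0 q + G 0 (ι (FS st e o bs h τ x y p.1 q.1)) +
        (G 0 p + G 0 q) = G (x + y) 0 + G 0 (ι (FS st e o bs h τ x y p.1 q.1)) := by
      calc _ = G (x + y) 0 + G 0 (ι (FS st e o bs h τ x y p.1 q.1)) + (G 0 p + G 0 p) +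
          (G 0 q + G 0 q) := by abel
        _ = _ := by rw [two_self, two_self, add_zero, add_zero]
    rw [h7] at h6
    rw [h6, ← hx0 x p, ← hx0 y q]
    calc _ = G x 0 + G y 0 + ι (FS st e o bs h τ' x y (G x p).1 (G y q).1) +
          (G 0 p + G 0 p) + (G 0 q + G 0 q) := by
          rw [hx0 x p, hx0 y q]
          abel
      _ = _ := by rw [two_self, two_self, add_zero, add_zero]
  have hιadd : ∀ a b, ι (a + b) = ι a + ι b := by
    intro a b
    refine Prod.ext ?_ rfl
    show (0 : (Ed → ZMod 2)) = 0 + 0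
    rw [add_zero]
  -- the restriction to the last component is the identity
  have hone : G 0 (ι 1) = ι 1 := by
    have hd := hs.dg_e ε0
    have a1 := hmain _ _ hd (Pi.single ε0 1, 0) 0
    have a2 := hmain _ _ hd 0 0
    have hF1 : FS st e o bs h τ (e (st ε0).1) (e (st ε0).2)
        ((Pi.single ε0 1, 0) : (Ed → ZMod 2) × ZMod 2).1 (0 : (Ed → ZMod 2) × ZMod 2).1 =
        FS st e o bs h τ (e (st ε0).1) (e (st ε0).2) (0 : (Ed → ZMod 2) × ZMod 2).1
          (0 : (Ed → ZMod 2) × ZMod 2).1 + 1 := by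
      unfold FS
      rw [if_neg hd, if_neg hd, hs.msum_t1, hs.msum_t1]
      show _ + ((Pi.single ε0 1 : Ed → ZMod 2) ε0 + (0 : Ed → ZMod 2) ε0) + _ =
        _ + ((0 : Ed → ZMod 2) ε0 + (0 : Ed → ZMod 2) ε0) + _ + 1
      rw [Pi.single_eq_same, Pi.zero_apply]
      ring
    rw [hF1, hιadd, hadd] at a1
    set f1 := FS st e o bs h τ (e (st ε0).1) (e (st ε0).2) (0 : (Ed → ZMod 2) × ZMod 2).1
          (0 : (Ed → ZMod 2) × ZMod 2).1
    set f2 := FS st e o bs h τ' (e (st ε0).1) (e (st ε0).2)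
      (G (e (st ε0).1) (Pi.single ε0 1, 0)).1 (G (e (st ε0).2) 0).1
    set f3 := FS st e o bs h τ' (e (st ε0).1) (e (st ε0).2)
      (G (e (st ε0).1) 0).1 (G (e (st ε0).2) 0).1
    have h1 : G 0 (ι 1) = ι (f2 + f3) := by
      rw [hιadd]
      have h2 : G 0 (ι 1) = (G (e (st ε0).1 + e (st ε0).2) 0 + (G 0 (ι f1) + G 0 (ι 1))) +
          (G (e (st ε0).1 + e (st ε0).2) 0 + G 0 (ι f1)) := by
        calc G 0 (ι 1) = (G (e (st ε0).1 + e (st ε0).2) 0 + G (e (st ε0).1 + e (st ε0).2) 0) +
            (G 0 (ι f1) + G 0 (ι f1)) + G 0 (ι 1) := by rw [two_self, two_self, zero_add, zero_add]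
          _ = _ := by abel
      rw [h2, a1, a2]
      calc _ = (G (e (st ε0).1) 0 + G (e (st ε0).1) 0) + (G (e (st ε0).2) 0 +
            G (e (st ε0).2) 0) + (ι f2 + ι f3) := by abel
        _ = _ := by rw [two_self, two_self, zero_add, zero_add]
    have h2 : f2 + f3 ≠ 0 := by
      intro h3
      rw [h3] at h1
      have h4 : g (0, ι 1) = g (0, 0) := by
        rw [hG, hG, h1, hG0]
        rfl
      have h5 : (1 : ZMod 2) = 0 := congrArg (fun q => q.2.2) (hg h4)
      exact absurd h5 (by decide)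
    have h3 : f2 + f3 = 1 := by
      revert h2
      generalize f2 + f3 = z
      revert z
      decide
    rw [h1, h3]
  have hι : ∀ t, G 0 (ι t) = ι t := by
    intro t
    have : t = 0 ∨ t = 1 := by
      revert t
      decide
    rcases this with rfl | rfl
    · exact hG0
    · exact hone
  have hγ : τ + τ' = 0 := by
    refine no_gaugeS (bs := bs) hs (τ + τ') hA (fun x => (G x 0).1) (fun x => (G x 0).2) ?_
    · intro x y hd
      have h1 := congrArg Prod.snd (hmain x y hd 0 0)
      rw [hι] at h1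
      have h2 : (G (x + y) 0).2 + FS st e o bs h τ x y 0 0 =
          (G x 0).2 + (G y 0).2 + FS st e o bs h τ' x y (G x 0).1 (G y 0).1 := h1
      unfold FS at h2
      rw [if_neg hd, if_neg hd] at h2
      have h3 : msum st e o x y (0 : Ed → ZMod 2) 0 = 0 := by
        unfold msum
        rw [add_zero, mu_zero, mu_zero, mu_zero, add_zero, add_zero]
      rw [h3, add_zero] at h2
      by_cases hl : ln x y = t2 e o bs
      · rw [if_pos hl, if_pos hl] at h2
        rw [if_pos hl]
        have h4 := add_eq_of_two h2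
        rw [h4]
        calc _ = msum st e o x y (G x 0).1 (G y 0).1 + (τ + τ') + ((G x 0).2 + (G x 0).2) +
              ((G y 0).2 + (G y 0).2) + (h (ln x y) + h (ln x y)) := by abel
          _ = _ := by rw [z2_self, z2_self, z2_self, add_zero, add_zero, add_zero]
      · rw [if_neg hl, if_neg hl, add_zero, add_zero] at h2
        rw [if_neg hl, add_zero]
        have h4 := add_eq_of_two h2
        rw [h4]
        calc _ = msum st e o x y (G x 0).1 (G y 0).1 + ((G x 0).2 + (G x 0).2) +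
              ((G y 0).2 + (G y 0).2) + (h (ln x y) + h (ln x y)) := by abel
          _ = _ := by rw [z2_self, z2_self, z2_self, add_zero, add_zero, add_zero]
  exact eq_of_add_eq_zero_two hγ

end

end Pool.Agent.W877.ST
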