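import Mathlib

/-!
# Steiner triple systems and their block graphs
-/

set_option autoImplicit false

namespace Pool.Agent.W877.ST

/-- `B` is (the set of blocks of) a Steiner triple system with point set `P`: every block has
three points and any two distinct points lie in exactly one block. -/
def IsSTS {P : Type} (B : Finset (Finset P)) : Prop :=
  (∀ b ∈ B, b.card = 3) ∧ ∀ x y : P, x ≠ y → ∃! b, b ∈ B ∧ x ∈ b ∧ y ∈ b

/-- The block graph: the vertices are the blocks, two distinct blocks are adjacent if they have a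
point in common. -/
def blockGraph {P : Type} (B : Finset (Finset P)) : SimpleGraph B where
  Adj b c := b ≠ c ∧ ∃ x, x ∈ b.1 ∧ x ∈ c.1
  symm := ⟨fun _ _ h => ⟨h.1.symm, h.2.imp fun _ hx => ⟨hx.2, hx.1⟩⟩⟩
  loopless := ⟨fun _ h => h.1 rfl⟩

section

variable {P : Type} [Fintype P] [DecidableEq P]

theorem IsSTS.uniq {B : Finset (Finset P)} (hB : IsSTS B) {b c : Finset P} (hb : b ∈ B)
    (hc : c ∈ B) {x y : P} (hxy : x ≠ y) (h1 : x ∈ b) (h2 : y ∈ b) (h3 : x ∈ c) (h4 : y ∈ c) :
    b = c :=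
  (hB.2 x y hxy).unique ⟨hb, h1, h2⟩ ⟨hc, h3, h4⟩

/-- The blocks through a point. -/
def star (B : Finset (Finset P)) (x : P) : Finset B :=
  Finset.univ.filter fun b => x ∈ b.1

theorem mem_star {B : Finset (Finset P)} {x : P} {b : B} : b ∈ star B x ↔ x ∈ b.1 := by
  simp [star]

theorem card_star {B : Finset (Finset P)} (hB : IsSTS B) (hP : 21 ≤ Fintype.card P) (x : P) :
    10 ≤ (star B x).card := by
  have h1 : (Finset.univ : Finset P) ⊆
      insert x ((star B x).biUnion fun b => b.1.erase x) := by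
    intro y _
    by_cases hxy : y = x
    · rw [hxy]
      exact Finset.mem_insert_self _ _
    · obtain ⟨b, ⟨hb, hx, hy⟩, -⟩ := hB.2 x y (Ne.symm hxy)
      refine Finset.mem_insert_of_mem (Finset.mem_biUnion.2 ⟨⟨b, hb⟩, mem_star.2 hx, ?_⟩)
      exact Finset.mem_erase.2 ⟨hxy, hy⟩
  have h2 := (Finset.card_le_card h1).trans (Finset.card_insert_le _ _)
  have h3 : ((star B x).biUnion fun b => b.1.erase x).card ≤ (star B x).card * 2 := by
    refine Finset.card_biUnion_le_card_mul _ _ _ ?_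
    intro b hb
    rw [Finset.card_erase_of_mem (mem_star.1 hb), hB.1 b.1 b.2]
  rw [Finset.card_univ] at h2
  omega

theorem common_point {B : Finset (Finset P)} (hB : IsSTS B) (C : Finset B)
    (hC : 10 ≤ C.card) (hcl : ∀ b ∈ C, ∀ c ∈ C, b ≠ c → ∃ x, x ∈ b.1 ∧ x ∈ c.1) :
    ∃ p, ∀ b ∈ C, p ∈ b.1 := by
  by_cases h : ∃ p, 4 ≤ (C.filter fun b => p ∈ b.1).card
  · obtain ⟨p, hp⟩ := h
    refine ⟨p, fun c hc => ?_⟩
    by_contra hpc
    have hex : ∀ b : B, b ∈ (C.filter fun b => p ∈ b.1) → ∃ x, x ∈ b.1 ∧ x ∈ c.1 := by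
      intro b hb
      obtain ⟨hb1, hb2⟩ := Finset.mem_filter.1 hb
      refine hcl b hb1 c hc ?_
      rintro rfl
      exact hpc hb2
    have : Nonempty P := ⟨p⟩
    choose! f hf1 hf2 using hex
    have h2 : (C.filter fun b => p ∈ b.1).card ≤ c.1.card := by
      refine Finset.card_le_card_of_injOn f (fun b hb => hf2 b (Finset.mem_coe.1 hb)) ?_
      intro b hb b' hb' heq
      have hb1 := Finset.mem_coe.1 hb
      have hb2 := Finset.mem_coe.1 hb'
      have hpf : p ≠ f b := by
        intro h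
        exact hpc (h ▸ hf2 b hb1)
      refine Subtype.ext (hB.uniq b.2 b'.2 hpf (Finset.mem_filter.1 hb1).2 (hf1 b hb1)
        (Finset.mem_filter.1 hb2).2 ?_)
      rw [heq]
      exact hf1 b' hb2
    rw [hB.1 c.1 c.2] at h2
    omega
  · push Not at h
    exfalso
    obtain ⟨b, hb⟩ : C.Nonempty := by
      rw [← Finset.card_pos]
      omega
    have h1 : C ⊆ b.1.biUnion fun x => C.filter fun c => x ∈ c.1 := by
      intro c hc
      by_cases hbc : b = c
      · subst hbc
        have h3 : 0 < b.1.card := by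
          rw [hB.1 b.1 b.2]
          norm_num
        obtain ⟨x, hx⟩ := Finset.card_pos.1 h3
        exact Finset.mem_biUnion.2 ⟨x, hx, Finset.mem_filter.2 ⟨hc, hx⟩⟩
      · obtain ⟨x, hx1, hx2⟩ := hcl b hb c hc hbc
        exact Finset.mem_biUnion.2 ⟨x, hx1, Finset.mem_filter.2 ⟨hc, hx2⟩⟩
    have h2 := (Finset.card_le_card h1).trans
      (Finset.card_biUnion_le_card_mul b.1 _ 3 (fun x _ => by have := h x; omega))
    rw [hB.1 b.1 b.2] at h2
    omega

theorem star_unique {B : Finset (Finset P)} (hB : IsSTS B) (hP : 21 ≤ Fintype.card P)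
    {x z : P} (h : ∀ b ∈ star B x, z ∈ b.1) : z = x := by
  by_contra hne
  have h1 := card_star hB hP x
  obtain ⟨b, hb, c, hc, hbc⟩ := Finset.one_lt_card.1 (by omega : 1 < (star B x).card)
  exact hbc (Subtype.ext (hB.uniq b.2 c.2 hne (h b hb) (mem_star.1 hb) (h c hc) (mem_star.1 hc)))

/-- An isomorphism of block graphs comes from an isomorphism of the systems. -/
theorem exists_pointMap {B B' : Finset (Finset P)} (hB : IsSTS B) (hB' : IsSTS B')
    (hP : 21 ≤ Fintype.card P) (Ψ : blockGraph B ≃g blockGraph B') :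
    ∃ p : P → P, Function.Injective p ∧ ∀ b ∈ B, b.image p ∈ B' := by
  have hex : ∀ x : P, ∃ p : P, ∀ b ∈ star B x, p ∈ (Ψ b).1 := by
    intro x
    obtain ⟨p, hp⟩ := common_point hB' ((star B x).map Ψ.toEquiv.toEmbedding) (by
      rw [Finset.card_map]
      exact card_star hB hP x) (by
      intro b hb c hc hbc
      obtain ⟨b', hb', rfl⟩ := Finset.mem_map.1 hb
      obtain ⟨c', hc', rfl⟩ := Finset.mem_map.1 hc
      have h1 : (blockGraph B).Adj b' c' :=
        ⟨fun h => hbc (by rw [h]), x, mem_star.1 hb', mem_star.1 hc'⟩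
      exact (Ψ.map_adj_iff.2 h1).2)
    exact ⟨p, fun b hb => hp _ (Finset.mem_map.2 ⟨b, hb, rfl⟩)⟩
  choose p hp using hex
  have hinj : Function.Injective p := by
    intro x y hxy
    have hcard : 10 ≤ (star B x ∪ star B y).card :=
      (card_star hB hP x).trans (Finset.card_le_card Finset.subset_union_left)
    obtain ⟨z, hz⟩ := common_point hB (star B x ∪ star B y) hcard (by
      intro b hb c hc hbc
      have hall : ∀ d ∈ star B x ∪ star B y, p x ∈ (Ψ d).1 := by
        intro d hd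
        rcases Finset.mem_union.1 hd with h | h
        · exact hp x d h
        · rw [hxy]
          exact hp y d h
      have h1 : (blockGraph B').Adj (Ψ b) (Ψ c) :=
        ⟨fun h => hbc (Ψ.injective h), p x, hall b hb, hall c hc⟩
      exact (Ψ.map_adj_iff.1 h1).2)
    have h1 : z = x := star_unique hB hP fun b hb => hz b (Finset.mem_union_left _ hb)
    have h2 : z = y := star_unique hB hP fun b hb => hz b (Finset.mem_union_right _ hb)
    rw [← h1, h2]
  refine ⟨p, hinj, fun b hb => ?_⟩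
  have h1 : b.image p ⊆ (Ψ ⟨b, hb⟩).1 := by
    intro y hy
    obtain ⟨x, hx, rfl⟩ := Finset.mem_image.1 hy
    exact hp x ⟨b, hb⟩ (mem_star.2 hx)
  have h2 : b.image p = (Ψ ⟨b, hb⟩).1 := by
    refine Finset.eq_of_subset_of_card_le h1 ?_
    rw [Finset.card_image_of_injective _ hinj, hB.1 b hb, hB'.1 _ (Ψ ⟨b, hb⟩).2]
  rw [h2]
  exact (Ψ ⟨b, hb⟩).2

end

end Pool.Agent.W877.ST
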