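import Pool.Agent.W185.LSQ.Loop
import Pool.Agent.W877.ST.Sts

/-!
# Steiner loops over a sparse base graph and their triple systems
-/

set_option autoImplicit false
set_option linter.unusedSectionVars false

namespace Pool.Agent.W877.ST

open Finset Pool.Agent.W185.SRG Pool.Agent.W185.LSQ

theorem z2_self (x : ZMod 2) : x + x = 0 := two_self x

section

variable {N : ℕ} {Ed A : Type} [Fintype Ed] [DecidableEq Ed]
  [AddCommGroup A] [Module (ZMod 2) A] [Fintype A] [DecidableEq A]

/-- The underlying set of the loops. -/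
abbrev Q2 (Ed A : Type) : Type := QQ Ed A (ZMod 2)

/-- The line through two vectors. -/
def ln (x y : A) : Finset A := {x, y, x + y}

theorem mem_ln {x y z : A} : z ∈ ln x y ↔ z = x ∨ z = y ∨ z = x + y := by
  simp [ln]

theorem ln_comm (x y : A) : ln x y = ln y x := by
  ext z
  rw [mem_ln, mem_ln, add_comm y x]
  tauto

theorem add_add_two (x y : A) : x + (x + y) = y := by
  rw [← add_assoc, two_self, zero_add]

theorem ln_add (x y : A) : ln x (x + y) = ln x y := by
  ext z
  rw [mem_ln, mem_ln, add_add_two]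
  tauto

/-- The line attached to the edge `ε`. -/
def t1 (st : Ed → Fin N × Fin N) (e : Fin N → A) (ε : Ed) : Finset A :=
  ln (e (st ε).1) (e (st ε).2)

/-- The line attached to the vertex `i`. -/
def t2 (e : Fin N → A) (o : A) (i : Fin N) : Finset A := ln (e i) o

/-- The functional attached to the line `l` and its point `w`. -/
def mu (st : Ed → Fin N × Fin N) (e : Fin N → A) (o : A) (l : Finset A) (w : A)
    (c : Ed → ZMod 2) : ZMod 2 :=
  (∑ ε, if l = t1 st e ε ∧ w = e (st ε).1 + e (st ε).2 then c ε else 0) +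
    ∑ i, if l = t2 e o i ∧ w = e i then inc st i c else 0

theorem mu_add (st : Ed → Fin N × Fin N) (e : Fin N → A) (o : A) (l : Finset A) (w : A)
    (c d : Ed → ZMod 2) : mu st e o l w (c + d) = mu st e o l w c + mu st e o l w d := by
  unfold mu
  simp only [inc_add, Pi.add_apply, ite_add_ite', Finset.sum_add_distrib]
  abel

theorem mu_zero (st : Ed → Fin N × Fin N) (e : Fin N → A) (o : A) (l : Finset A) (w : A) :
    mu st e o l w 0 = 0 := by
  have := mu_add st e o l w 0 0
  rw [add_zero] at this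
  exact add_eq_left.1 this.symm

/-- Degenerate pairs. -/
def Dg (x y : A) : Prop := x = 0 ∨ y = 0 ∨ x = y

instance (x y : A) : Decidable (Dg x y) := by unfold Dg; infer_instance

theorem Dg.symm {x y : A} (h : Dg x y) : Dg y x := by
  rcases h with h | h | h
  · exact Or.inr (Or.inl h)
  · exact Or.inl h
  · exact Or.inr (Or.inr h.symm)

theorem Dg.add {x y : A} (h : Dg x y) : Dg x (x + y) := by
  rcases h with h | h | h
  · exact Or.inl h
  · subst h
    exact Or.inr (Or.inr (add_zero x).symm)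
  · subst h
    exact Or.inr (Or.inl (two_self x))

theorem dg_comm {x y : A} : Dg x y ↔ Dg y x := ⟨Dg.symm, Dg.symm⟩

theorem dg_add {x y : A} : Dg x (x + y) ↔ Dg x y := by
  refine ⟨fun h => ?_, Dg.add⟩
  have := h.add
  rwa [add_add_two] at this

/-- The sum of the functionals over the three points of a line. -/
def msum (st : Ed → Fin N × Fin N) (e : Fin N → A) (o : A) (x y : A) (c d : Ed → ZMod 2) :
    ZMod 2 :=
  mu st e o (ln x y) x c + mu st e o (ln x y) y d + mu st e o (ln x y) (x + y) (c + d)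

theorem msum_comm (st : Ed → Fin N × Fin N) (e : Fin N → A) (o : A) (x y : A)
    (c d : Ed → ZMod 2) : msum st e o x y c d = msum st e o y x d c := by
  unfold msum
  rw [ln_comm y x, add_comm y x, add_comm d c]
  abel

theorem add_add_two' (c d : Ed → ZMod 2) : c + (c + d) = d := by
  rw [← add_assoc, two_self, zero_add]

theorem msum_add (st : Ed → Fin N × Fin N) (e : Fin N → A) (o : A) (x y : A)
    (c d : Ed → ZMod 2) : msum st e o x (x + y) c (c + d) = msum st e o x y c d := by
  unfold msum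
  rw [ln_add, add_add_two, add_add_two']
  abel

/-- The structure function of the loop with parameters `h` and `τ`. -/
def FS (st : Ed → Fin N × Fin N) (e : Fin N → A) (o : A) (bs : Fin N) (h : Finset A → ZMod 2)
    (τ : ZMod 2) (x y : A) (c d : Ed → ZMod 2) : ZMod 2 :=
  if Dg x y then 0 else
    h (ln x y) + msum st e o x y c d + (if ln x y = t2 e o bs then τ else 0)

theorem FS_comm (st : Ed → Fin N × Fin N) (e : Fin N → A) (o : A) (bs : Fin N)
    (h : Finset A → ZMod 2) (τ : ZMod 2) (x y : A) (c d : Ed → ZMod 2) :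
    FS st e o bs h τ x y c d = FS st e o bs h τ y x d c := by
  unfold FS
  rw [msum_comm, ln_comm y x]
  by_cases hd : Dg x y
  · rw [if_pos hd, if_pos hd.symm]
  · rw [if_neg hd, if_neg (show ¬ Dg y x from fun h' => hd h'.symm)]

theorem FS_add (st : Ed → Fin N × Fin N) (e : Fin N → A) (o : A) (bs : Fin N)
    (h : Finset A → ZMod 2) (τ : ZMod 2) (x y : A) (c d : Ed → ZMod 2) :
    FS st e o bs h τ x (x + y) c (c + d) = FS st e o bs h τ x y c d := by
  unfold FS
  rw [msum_add, ln_add]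
  by_cases hd : Dg x y
  · rw [if_pos hd, if_pos hd.add]
  · rw [if_neg hd, if_neg (show ¬ Dg x (x + y) from fun h' => hd (dg_add.1 h'))]

/-- The product. -/
def ops (st : Ed → Fin N × Fin N) (e : Fin N → A) (o : A) (bs : Fin N) (h : Finset A → ZMod 2)
    (τ : ZMod 2) (u v : Q2 Ed A) : Q2 Ed A :=
  (u.1 + v.1, (u.2.1 + v.2.1, u.2.2 + v.2.2 + FS st e o bs h τ u.1 v.1 u.2.1 v.2.1))

variable {st : Ed → Fin N × Fin N} {e : Fin N → A} {o : A} {bs : Fin N} {h : Finset A → ZMod 2}
  {τ : ZMod 2}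

theorem ops_comm (u v : Q2 Ed A) : ops st e o bs h τ u v = ops st e o bs h τ v u := by
  unfold ops
  rw [FS_comm st e o bs h τ v.1 u.1, add_comm v.1, add_comm v.2.1, add_comm v.2.2]

theorem ops_ops (u v : Q2 Ed A) : ops st e o bs h τ u (ops st e o bs h τ u v) = v := by
  refine Prod.ext ?_ (Prod.ext ?_ ?_)
  · exact add_add_two u.1 v.1
  · exact add_add_two' u.2.1 v.2.1
  · show u.2.2 + (u.2.2 + v.2.2 + FS st e o bs h τ u.1 v.1 u.2.1 v.2.1) +
      FS st e o bs h τ u.1 (u.1 + v.1) u.2.1 (u.2.1 + v.2.1) = v.2.2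
    rw [FS_add]
    calc u.2.2 + (u.2.2 + v.2.2 + FS st e o bs h τ u.1 v.1 u.2.1 v.2.1) +
        FS st e o bs h τ u.1 v.1 u.2.1 v.2.1 = (u.2.2 + u.2.2) + v.2.2 +
        (FS st e o bs h τ u.1 v.1 u.2.1 v.2.1 + FS st e o bs h τ u.1 v.1 u.2.1 v.2.1) := by abel
      _ = v.2.2 := by rw [z2_self, z2_self, zero_add, add_zero]

theorem FS_dg {x y : A} (hd : Dg x y) (c d : Ed → ZMod 2) : FS st e o bs h τ x y c d = 0 := by
  unfold FS
  rw [if_pos hd]

theorem ops_dg {u v : Q2 Ed A} (hd : Dg u.1 v.1) : ops st e o bs h τ u v = u + v := by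
  unfold ops
  rw [FS_dg hd, add_zero]
  rfl

theorem ops_self (u : Q2 Ed A) : ops st e o bs h τ u u = 0 := by
  rw [ops_dg (Or.inr (Or.inr rfl))]
  exact two_self u

theorem ops_zero (u : Q2 Ed A) : ops st e o bs h τ u 0 = u := by
  rw [ops_dg (Or.inr (Or.inl rfl)), add_zero]

theorem ops_ne_zero {u v : Q2 Ed A} (huv : u ≠ v) : ops st e o bs h τ u v ≠ 0 := by
  intro h0
  apply huv
  have h1 := ops_ops (st := st) (e := e) (o := o) (bs := bs) (h := h) (τ := τ) u v
  rw [h0, ops_zero] at h1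
  exact h1

theorem ops_ne_left {u v : Q2 Ed A} (hv : v ≠ 0) : ops st e o bs h τ u v ≠ u := by
  intro h0
  apply hv
  have h1 := ops_ops (st := st) (e := e) (o := o) (bs := bs) (h := h) (τ := τ) u v
  rw [h0, ops_self] at h1
  exact h1.symm

theorem ops_ne_right {u v : Q2 Ed A} (hu : u ≠ 0) : ops st e o bs h τ u v ≠ v := by
  rw [ops_comm]
  exact ops_ne_left hu

/-- The points. -/
abbrev Pt (Ed A : Type) [AddCommGroup A] : Type := {q : Q2 Ed A // q ≠ 0}

/-- The block through two points. -/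
def blk (st : Ed → Fin N × Fin N) (e : Fin N → A) (o : A) (bs : Fin N) (h : Finset A → ZMod 2)
    (τ : ZMod 2) (u v : Q2 Ed A) : Finset (Q2 Ed A) := {u, v, ops st e o bs h τ u v}

theorem mem_blk {u v w : Q2 Ed A} :
    w ∈ blk st e o bs h τ u v ↔ w = u ∨ w = v ∨ w = ops st e o bs h τ u v := by
  simp [blk]

theorem blk_comm (u v : Q2 Ed A) : blk st e o bs h τ u v = blk st e o bs h τ v u := by
  ext w
  rw [mem_blk, mem_blk, ops_comm v u]
  tauto

theorem blk_ops (u v : Q2 Ed A) :
    blk st e o bs h τ u (ops st e o bs h τ u v) = blk st e o bs h τ u v := by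
  ext w
  rw [mem_blk, mem_blk, ops_ops]
  tauto

theorem blk_eq {u v x y : Q2 Ed A} (hxy : x ≠ y) (hx : x ∈ blk st e o bs h τ u v)
    (hy : y ∈ blk st e o bs h τ u v) : blk st e o bs h τ u v = blk st e o bs h τ x y := by
  have huv : ops st e o bs h τ v (ops st e o bs h τ u v) = u := by
    rw [ops_comm u v, ops_ops]
  rw [mem_blk] at hx hy
  rcases hx with rfl | rfl | rfl <;> rcases hy with rfl | rfl | rfl
  · exact absurd rfl hxy
  · rfl
  · rw [blk_ops]
  · rw [blk_comm]
  · exact absurd rfl hxy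
  · rw [ops_comm u x, blk_ops, blk_comm]
  · rw [blk_comm (ops st e o bs h τ y v) y, blk_ops]
  · rw [blk_comm (ops st e o bs h τ u y) y, ops_comm u y, blk_ops, blk_comm]
  · exact absurd rfl hxy

/-- The inclusion of the points. -/
def inj : Pt Ed A ↪ Q2 Ed A := ⟨Subtype.val, Subtype.val_injective⟩

open Classical in
/-- The blocks of the triple system. -/
noncomputable def blocks (st : Ed → Fin N × Fin N) (e : Fin N → A) (o : A) (bs : Fin N)
    (h : Finset A → ZMod 2) (τ : ZMod 2) : Finset (Finset (Pt Ed A)) :=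
  Finset.univ.filter fun b => ∃ u v : Q2 Ed A, u ≠ 0 ∧ v ≠ 0 ∧ u ≠ v ∧
    b.map inj = blk st e o bs h τ u v

theorem mem_blocks {b : Finset (Pt Ed A)} :
    b ∈ blocks st e o bs h τ ↔ ∃ u v : Q2 Ed A, u ≠ 0 ∧ v ≠ 0 ∧ u ≠ v ∧
      b.map inj = blk st e o bs h τ u v := by
  classical
  simp [blocks]

theorem card_blk {u v : Q2 Ed A} (hu : u ≠ 0) (hv : v ≠ 0) (huv : u ≠ v) :
    (blk st e o bs h τ u v).card = 3 := by
  unfold blk
  rw [Finset.card_eq_three]
  exact ⟨u, v, _, huv, (ops_ne_left hv).symm, (ops_ne_right hu).symm, rfl⟩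

theorem isSTS_blocks : IsSTS (blocks st e o bs h τ) := by
  constructor
  · intro b hb
    obtain ⟨u, v, hu, hv, huv, h1⟩ := mem_blocks.1 hb
    rw [← Finset.card_map inj, h1]
    exact card_blk hu hv huv
  · intro x y hxy
    have hxy' : x.1 ≠ y.1 := fun h => hxy (Subtype.ext h)
    refine ⟨{x, y, ⟨ops st e o bs h τ x.1 y.1, ops_ne_zero hxy'⟩}, ⟨?_, by simp, by simp⟩, ?_⟩
    · refine mem_blocks.2 ⟨x.1, y.1, x.2, y.2, hxy', ?_⟩
      ext w
      simp [inj, blk]
    · rintro b ⟨hb, hx, hy⟩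
      obtain ⟨u, v, hu, hv, huv, h1⟩ := mem_blocks.1 hb
      have hx' : x.1 ∈ blk st e o bs h τ u v := by
        rw [← h1]
        exact Finset.mem_map.2 ⟨x, hx, rfl⟩
      have hy' : y.1 ∈ blk st e o bs h τ u v := by
        rw [← h1]
        exact Finset.mem_map.2 ⟨y, hy, rfl⟩
      apply Finset.map_injective inj
      rw [h1, blk_eq hxy' hx' hy']
      ext w
      simp [inj, blk]

end

end Pool.Agent.W877.ST
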