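import Pool.Agent.W877.ST.Algebra
import Pool.Agent.W185.LSQ.Base
import Pool.Agent.W185.SRG.Main

/-!
# Steiner triple systems need Weisfeiler-Leman dimension of order `log n`
-/

set_option autoImplicit false
set_option linter.unusedSectionVars false

namespace Pool.Agent.W877.ST

open Finset Pool.Agent.W185.SRG Pool.Agent.W185.LSQ

section

variable {N : ℕ} {Ed A : Type} [Fintype Ed] [DecidableEq Ed]
  [AddCommGroup A] [Module (ZMod 2) A] [Fintype A] [DecidableEq A]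
  {st : Ed → Fin N × Fin N} {e : Fin N → A} {o : A} {bs : Fin N}
  {lam : Fin N → A →ₗ[ZMod 2] ZMod 2}

theorem exists_nonIso (hs : Sys st e o lam) (ε0 : Ed) (t : ℕ)
    (hP : 21 ≤ Fintype.card (Pt Ed A))
    (hA : 4 + 8 * (t * Fintype.card ((Ed → ZMod 2) × ZMod 2)) ≤ Fintype.card A)
    (hK : ∀ m, t * Fintype.card A ≤ 4 * m →
      Fintype.card (Q2 Ed A) ^ Fintype.card (Q2 Ed A) < 2 ^ m)
    (hA2 : 3 + 9 * (Fintype.card Ed + N) < Fintype.card A) :
    ∃ h : Finset A → ZMod 2, IsEmpty (BG st e o bs h 0 ≃g BG st e o bs h 1) := by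
  classical
  by_contra hcon
  have hcon' : ∀ h : Finset A → ZMod 2, Nonempty (BG st e o bs h 0 ≃g BG st e o bs h 1) := by
    intro h
    by_contra hne
    exact hcon ⟨h, not_nonempty_iff.1 hne⟩
  have hex : ∀ h : Finset A → ZMod 2, ∃ g : Q2 Ed A → Q2 Ed A,
      Function.Injective g ∧ Hm st e o bs h 0 1 g := fun h => exists_hm hP (hcon' h)
  choose G hG1 hG2 using hex
  obtain ⟨g, hg⟩ := exists_large_fiber (0 : Finset A → ZMod 2) G
  rw [Fintype.card_fun (α := Q2 Ed A)] at hg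
  have hne : (Finset.univ.filter fun h => G h = g).Nonempty := by
    rw [Finset.nonempty_iff_ne_empty]
    intro h0
    rw [h0, Finset.card_empty, zero_mul] at hg
    have : 0 < Fintype.card (Finset A → ZMod 2) := Fintype.card_pos
    omega
  have hi : ∀ h ∈ (Finset.univ.filter fun h => G h = g), Hm st e o bs h 0 1 g := by
    intro h hh
    have := hG2 h
    rwa [(Finset.mem_filter.1 hh).2] at this
  have hginj : Function.Injective g := by
    obtain ⟨h, hh⟩ := hne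
    have := hG1 h
    rwa [(Finset.mem_filter.1 hh).2] at this
  have hfix := fix_A hginj _ _ t hg hne hi hA hK
  obtain ⟨h, hh⟩ := hne
  have h01 : (0 : ZMod 2) = 1 := no_hm hs ε0 hginj (hi h hh) hfix hA2
  exact absurd h01 (by decide)

end

theorem exists_edge {q : ℕ} (hq : 1 ≤ q) {E : Finset (Fin (8 * q) × Fin (8 * q))}
    {b : Fin (8 * q)} (hb : Big (fun ε : E => ε.1) ∅ b) : Nonempty E := by
  classical
  by_contra hE
  rw [not_nonempty_iff] at hE
  have h1 : ∀ v, Conn (fun ε : E => ε.1) ∅ b v → v = b := by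
    intro v hv
    induction hv with
    | refl => rfl
    | tail _ hs _ =>
      obtain ⟨-, -, ε, -⟩ := hs
      exact (hE.false ε).elim
  have h2 := hb.2
  have h3 : (Finset.univ.filter fun v => Conn (fun ε : E => ε.1) ∅ b v).card ≤ 1 := by
    refine Finset.card_le_one.2 fun v hv w hw => ?_
    rw [h1 v (Finset.mem_filter.1 hv).2, h1 w (Finset.mem_filter.1 hw).2]
  have h4 : (Finset.univ.filter fun v => Conn (fun ε : E => ε.1) ∅ b v).card =
      @Finset.card _ (@Finset.filter _ (Conn (fun ε : E => ε.1) ∅ b)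
        (fun v => Classical.propDecidable _) Finset.univ) := by
    congr
  omega

theorem main (k : ℕ) (hk : 1 ≤ k) :
    ∃ (P : Type) (_ : Fintype P) (B B' : Finset (Finset P)), IsSTS B ∧ IsSTS B' ∧
      Fintype.card P ≤ 2 ^ (16432 * k) ∧ IsEmpty (blockGraph B ≃g blockGraph B') ∧
      WLEquivalent k (blockGraph B) (blockGraph B') := by
  obtain ⟨q, hq⟩ : ∃ q : ℕ, q = 2 * k + 2 := ⟨_, rfl⟩
  obtain ⟨E, hlt, hEc, hrob⟩ := exists_robust q (by omega)
  obtain ⟨N, hN⟩ : ∃ N : ℕ, N = 8 * q := ⟨_, rfl⟩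
  obtain ⟨κ, hκ⟩ : ∃ κ : ℕ, κ = E.card + 1 := ⟨_, rfl⟩
  obtain ⟨b, hb⟩ : ∃ b : ℕ, b = κ + N + 12 := ⟨_, rfl⟩
  obtain ⟨a, ha⟩ : ∃ a : ℕ, a = 2 * κ + b := ⟨_, rfl⟩
  have hNa : 8 * q ≤ a := by omega
  have hAc : Fintype.card (Fin a → ZMod 2) = 2 ^ a := by
    rw [Fintype.card_fun, ZMod.card, Fintype.card_fin]
  have hFc : Fintype.card ((E → ZMod 2) × ZMod 2) = 2 ^ κ := by
    rw [Fintype.card_prod, Fintype.card_fun, ZMod.card, Fintype.card_coe, hκ, pow_succ]
  have hQc : Fintype.card (Q2 E (Fin a → ZMod 2)) = 2 ^ (a + κ) := by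
    rw [Fintype.card_prod, hFc, hAc, pow_add]
  have hPc : Fintype.card (Pt E (Fin a → ZMod 2)) = 2 ^ (a + κ) - 1 := by
    rw [Fintype.card_subtype_compl, hQc]
    simp
  obtain ⟨t, ht⟩ : ∃ t : ℕ, t = 4 * ((a + κ + 1) * 2 ^ κ) := ⟨_, rfl⟩
  have hκ1 : κ < 2 ^ κ := Nat.lt_two_pow_self
  have hN1 : N < 2 ^ N := Nat.lt_two_pow_self
  have h2b : 2 ^ b = 4096 * (2 ^ κ * 2 ^ N) := by
    rw [hb, pow_add, pow_add]
    ring
  have hw : ∃ w, w = 2 ^ κ * 2 ^ N ∧ κ ≤ w ∧ N ≤ w ∧ 1 ≤ w := by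
    refine ⟨_, rfl, ?_, ?_, ?_⟩
    · exact hκ1.le.trans (Nat.le_mul_of_pos_right _ (by positivity))
    · exact hN1.le.trans (Nat.le_mul_of_pos_left _ (by positivity))
    · exact Nat.one_le_iff_ne_zero.2 (by positivity)
  obtain ⟨w, hw0, hw1, hw2, hw3⟩ := hw
  rw [← hw0] at h2b
  have hA : 4 + 8 * (t * Fintype.card ((E → ZMod 2) × ZMod 2)) ≤
      Fintype.card (Fin a → ZMod 2) := by
    rw [hFc, hAc, ht, ha, pow_add 2 (2 * κ) b, two_mul, pow_add 2 κ κ, h2b]
    have h1 : 1 ≤ 2 ^ κ * 2 ^ κ := Nat.one_le_iff_ne_zero.2 (by positivity)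
    obtain ⟨z, hz⟩ : ∃ z, z = 2 ^ κ * 2 ^ κ := ⟨_, rfl⟩
    have h2 : 4 + 8 * (4 * ((κ + κ + b + κ + 1) * 2 ^ κ) * 2 ^ κ) =
        4 + (32 * (κ + κ + b + κ + 1)) * z := by
      rw [hz]
      ring
    rw [h2, ← hz, mul_comm z]
    rw [← hz] at h1
    have h3 : 4 + 32 * (κ + κ + b + κ + 1) ≤ 4096 * w := by omega
    calc 4 + (32 * (κ + κ + b + κ + 1)) * z ≤ 4 * z + (32 * (κ + κ + b + κ + 1)) * z := by
          have : 4 ≤ 4 * z := by omega
          omega
      _ = (4 + 32 * (κ + κ + b + κ + 1)) * z := by ring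
      _ ≤ 4096 * w * z := Nat.mul_le_mul_right z h3
  have hK : ∀ m, t * Fintype.card (Fin a → ZMod 2) ≤ 4 * m →
      Fintype.card (Q2 E (Fin a → ZMod 2)) ^ Fintype.card (Q2 E (Fin a → ZMod 2)) < 2 ^ m := by
    intro m hm
    rw [hQc, ← pow_mul]
    apply Nat.pow_lt_pow_right (by norm_num)
    rw [hAc, ht] at hm
    have h1 : 4 * ((a + κ + 1) * 2 ^ κ) * 2 ^ a = 4 * ((a + κ + 1) * 2 ^ (a + κ)) := by
      rw [pow_add]
      ring
    rw [h1] at hm
    have h2 : (a + κ + 1) * 2 ^ (a + κ) ≤ m := by omega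
    refine lt_of_lt_of_le ?_ h2
    exact Nat.mul_lt_mul_of_pos_right (by omega) (by positivity)
  have h2a : 4096 * w ≤ 2 ^ a := by
    rw [ha, pow_add, h2b]
    exact Nat.le_mul_of_pos_left _ (by positivity)
  have hA2 : 3 + 9 * (Fintype.card E + 8 * q) < Fintype.card (Fin a → ZMod 2) := by
    rw [hAc, Fintype.card_coe]
    omega
  have hP : 21 ≤ Fintype.card (Pt E (Fin a → ZMod 2)) := by
    rw [hPc]
    have h1 : 2 ^ a ≤ 2 ^ (a + κ) := Nat.pow_le_pow_right (by norm_num) (by omega)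
    omega
  obtain ⟨bs, hbs⟩ := hrob ∅ (by simp)
  have hNa' : 8 * q < a := by omega
  let o : Fin a → ZMod 2 := Pi.single ⟨8 * q, hNa'⟩ 1
  have hsys : Sys (fun ε : E => ε.1) (stdE hNa) o
      (fun i => LinearMap.proj (Fin.castLE hNa i)) := by
    refine ⟨stdE_isDual hNa, ?_, ?_, Subtype.val_injective, fun ε => hlt ε.1 ε.2⟩
    · intro i
      show o (Fin.castLE hNa i) = 0
      refine Pi.single_eq_of_ne ?_ _
      intro h
      have h1 := congrArg Fin.val h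
      have h2 : (i : ℕ) = 8 * q := h1
      have := i.2
      omega
    · intro h
      have h1 := congrFun h ⟨8 * q, hNa'⟩
      have h2 : o ⟨8 * q, hNa'⟩ = 1 := Pi.single_eq_same _ _
      have h3 : (1 : ZMod 2) = 0 := h2.symm.trans h1
      exact absurd h3 (by decide)
  obtain ⟨ε0⟩ := exists_edge (by omega) hbs
  obtain ⟨h, hiso⟩ := exists_nonIso (bs := bs) hsys ε0 t hP hA hK hA2
  refine ⟨Pt E (Fin a → ZMod 2), inferInstance,
    blocks (fun ε : E => ε.1) (stdE hNa) o bs h 0, blocks (fun ε : E => ε.1) (stdE hNa) o bs h 1,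
    isSTS_blocks, isSTS_blocks, ?_, hiso, ?_⟩
  · rw [hPc]
    refine (Nat.sub_le _ _).trans (Nat.pow_le_pow_right (by norm_num) ?_)
    omega
  · exact wlEquivalent_BG hbs hrob hsys.hd.linearIndependent (by omega)

end Pool.Agent.W877.ST
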