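import Pool.Agent.W877.ST.WL

/-!
# Isomorphisms of the block graphs for many structure functions fix the components in `A`
-/

set_option autoImplicit false
set_option linter.unusedSectionVars false

namespace Pool.Agent.W877.ST

open Finset Pool.Agent.W185.SRG Pool.Agent.W185.LSQ

section

variable {N : ℕ} {Ed A : Type} [Fintype Ed] [DecidableEq Ed]
  [AddCommGroup A] [Module (ZMod 2) A] [Fintype A] [DecidableEq A]
  {st : Ed → Fin N × Fin N} {e : Fin N → A} {o : A} {bs : Fin N}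
  {τ τ' : ZMod 2}

/-- `g` is a homomorphism of the loops with parameters `(h, τ)` and `(h, τ')`. -/
def Hm (st : Ed → Fin N × Fin N) (e : Fin N → A) (o : A) (bs : Fin N) (h : Finset A → ZMod 2)
    (τ τ' : ZMod 2) (g : Q2 Ed A → Q2 Ed A) : Prop :=
  g 0 = 0 ∧ ∀ u v, g (ops st e o bs h τ u v) = ops st e o bs h τ' (g u) (g v)

theorem exists_hm {h : Finset A → ZMod 2} (hP : 21 ≤ Fintype.card (Pt Ed A))
    (hiso : Nonempty (BG st e o bs h τ ≃g BG st e o bs h τ')) :
    ∃ g : Q2 Ed A → Q2 Ed A, Function.Injective g ∧ Hm st e o bs h τ τ' g := by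
  obtain ⟨Ψ⟩ := hiso
  obtain ⟨p, hpi, hp⟩ := exists_pointMap isSTS_blocks isSTS_blocks hP Ψ
  let g : Q2 Ed A → Q2 Ed A := fun q => if hq : q = 0 then 0 else (p ⟨q, hq⟩).1
  have g0 : g 0 = 0 := by simp [g]
  have g1 : ∀ q (hq : q ≠ 0), g q = (p ⟨q, hq⟩).1 := fun q hq => dif_neg hq
  have gne : ∀ q, q ≠ 0 → g q ≠ 0 := by
    intro q hq
    rw [g1 q hq]
    exact (p ⟨q, hq⟩).2
  have ginj : Function.Injective g := by
    intro q r hqr
    by_cases hq : q = 0
    · by_cases hr : r = 0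
      · rw [hq, hr]
      · exact absurd (hqr.symm.trans (by rw [hq, g0])) (gne r hr)
    · by_cases hr : r = 0
      · exact absurd (hqr.trans (by rw [hr, g0])) (gne q hq)
      · rw [g1 q hq, g1 r hr] at hqr
        exact congrArg Subtype.val (hpi (Subtype.ext hqr))
  refine ⟨g, ginj, g0, fun u v => ?_⟩
  by_cases hu : u = 0
  · subst hu
    rw [ops_comm, ops_zero, g0, ops_comm, ops_zero]
  by_cases hv : v = 0
  · subst hv
    rw [ops_zero, g0, ops_zero]
  by_cases huv : u = v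
  · subst huv
    rw [ops_self, ops_self, g0]
  have hw : ops st e o bs h τ u v ≠ 0 := ops_ne_zero huv
  have hb : ({⟨u, hu⟩, ⟨v, hv⟩, ⟨ops st e o bs h τ u v, hw⟩} : Finset (Pt Ed A)) ∈
      blocks st e o bs h τ := by
    refine mem_blocks.2 ⟨u, v, hu, hv, huv, ?_⟩
    ext w
    simp [inj, blk]
  obtain ⟨x, y, hx, hy, hxy, h1⟩ := mem_blocks.1 (hp _ hb)
  have hmem : ∀ q (hq : q ≠ 0), (⟨q, hq⟩ : Pt Ed A) ∈
      ({⟨u, hu⟩, ⟨v, hv⟩, ⟨ops st e o bs h τ u v, hw⟩} : Finset (Pt Ed A)) →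
      g q ∈ blk st e o bs h τ' x y := by
    intro q hq hmem
    rw [← h1, g1 q hq]
    exact Finset.mem_map.2 ⟨_, Finset.mem_image_of_mem p hmem, rfl⟩
  have m1 := hmem u hu (by simp)
  have m2 := hmem v hv (by simp)
  have m3 := hmem _ hw (by simp)
  rw [blk_eq (fun h' => huv (ginj h')) m1 m2] at m3
  rcases mem_blk.1 m3 with h' | h' | h'
  · exact absurd (ginj h') (ops_ne_left hv)
  · exact absurd (ginj h') (ops_ne_right hu)
  · exact h'

/-- The key determination property. -/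
theorem Hm.det {h h' : Finset A → ZMod 2} {g : Q2 Ed A → Q2 Ed A}
    (hg : Function.Injective g) (hi : Hm st e o bs h τ τ' g) (hi' : Hm st e o bs h' τ τ' g)
    (u v : Q2 Ed A) (hd : ¬ Dg u.1 v.1)
    (heq : Dg (g u).1 (g v).1 ∨ h (ln (g u).1 (g v).1) = h' (ln (g u).1 (g v).1)) :
    h (ln u.1 v.1) = h' (ln u.1 v.1) := by
  have h1 : ops st e o bs h τ' (g u) (g v) = ops st e o bs h' τ' (g u) (g v) := by
    rcases heq with heq | heq
    · rw [ops_dg heq, ops_dg heq]
    · unfold ops FS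
      rw [heq]
  rw [← hi.2 u v, ← hi'.2 u v] at h1
  have h2 := congrArg (fun q => q.2.2) (hg h1)
  have h3 : u.2.2 + v.2.2 + FS st e o bs h τ u.1 v.1 u.2.1 v.2.1 =
    u.2.2 + v.2.2 + FS st e o bs h' τ u.1 v.1 u.2.1 v.2.1 := h2
  have h4 := add_left_cancel h3
  unfold FS at h4
  rw [if_neg hd, if_neg hd] at h4
  exact add_right_cancel (add_right_cancel h4)

/-- A large family of functions is not determined outside a large set. -/
theorem count_lines (𝓗 : Finset (Finset A → ZMod 2)) (K : ℕ)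
    (hcard : Fintype.card (Finset A → ZMod 2) ≤ 𝓗.card * K) (T : Finset (Finset A))
    (hdet : ∀ h ∈ 𝓗, ∀ h' ∈ 𝓗, (∀ l, l ∉ T → h l = h' l) → ∀ l ∈ T, h l = h' l) :
    2 ^ T.card ≤ K := by
  have h1 : 𝓗.card ≤ Fintype.card ({l : Finset A // l ∉ T} → ZMod 2) := by
    rw [← Finset.card_univ]
    refine Finset.card_le_card_of_injOn (fun h => fun l => h l.1)
      (fun _ _ => Finset.mem_coe.2 (Finset.mem_univ _)) ?_
    intro h hh h' hh' heq
    have h2 : ∀ l, l ∉ T → h l = h' l := fun l hl => congrFun heq ⟨l, hl⟩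
    funext l
    by_cases hl : l ∈ T
    · exact hdet h (Finset.mem_coe.1 hh) h' (Finset.mem_coe.1 hh') h2 l hl
    · exact h2 l hl
  have h3 : Fintype.card {l : Finset A // l ∉ T} = Fintype.card (Finset A) - T.card := by
    rw [Fintype.card_subtype_compl]
    simp
  rw [Fintype.card_fun, ZMod.card, h3] at h1
  rw [Fintype.card_fun, ZMod.card] at hcard
  have h4 : T.card ≤ Fintype.card (Finset A) := Finset.card_le_univ T
  have h5 : 2 ^ Fintype.card (Finset A) =
      2 ^ (Fintype.card (Finset A) - T.card) * 2 ^ T.card := by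
    rw [← pow_add, Nat.sub_add_cancel h4]
  rw [h5] at hcard
  have h6 := hcard.trans (Nat.mul_le_mul_right K h1)
  exact Nat.le_of_mul_le_mul_left h6 (pow_pos (by norm_num) _)

/-- The number of vectors moved into `Z`. -/
theorem card_into {g : Q2 Ed A → Q2 Ed A} (hg : Function.Injective g) (Z : Finset A) (w : A) :
    (Finset.univ.filter fun y : A => w + (g (y, 0)).1 ∈ Z).card ≤
      Z.card * Fintype.card ((Ed → ZMod 2) × ZMod 2) := by
  have h1 : (Finset.univ.filter fun y : A => w + (g (y, 0)).1 ∈ Z).card ≤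
      (Z ×ˢ (Finset.univ : Finset ((Ed → ZMod 2) × ZMod 2))).card := by
    refine Finset.card_le_card_of_injOn (fun y => (w + (g (y, 0)).1, (g (y, 0)).2)) ?_ ?_
    · intro y hy
      have := (Finset.mem_filter.1 (Finset.mem_coe.1 hy)).2
      exact Finset.mem_coe.2 (Finset.mem_product.2 ⟨this, Finset.mem_univ _⟩)
    · intro y _ y' _ hyy
      obtain ⟨e1, e2⟩ := Prod.mk.inj hyy
      have e3 := hg (Prod.ext (add_left_cancel e1) e2)
      exact congrArg Prod.fst e3
  rwa [Finset.card_product, Finset.card_univ] at h1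

/-- Main counting step. -/
theorem few_ranked {g : Q2 Ed A → Q2 Ed A} (hg : Function.Injective g)
    (𝓗 : Finset (Finset A → ZMod 2)) (K t : ℕ)
    (hcard : Fintype.card (Finset A → ZMod 2) ≤ 𝓗.card * K)
    (hi : ∀ h ∈ 𝓗, Hm st e o bs h τ τ' g)
    (hA : 4 + 8 * (t * Fintype.card ((Ed → ZMod 2) × ZMod 2)) ≤ Fintype.card A)
    (hK : ∀ m, t * Fintype.card A ≤ 4 * m → K < 2 ^ m)
    (Z : Finset A) (hZ0 : ∀ x ∈ Z, x ≠ 0) (ρ : A → Q2 Ed A) (hρ : ∀ x ∈ Z, (ρ x).1 = x)
    (r : A → ℕ) (hr : ∀ x ∈ Z, r (g (ρ x)).1 < r x) : Z.card < t := by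
  by_contra hcon
  push Not at hcon
  obtain ⟨Z', hZ', hZc⟩ := Finset.exists_subset_card_eq hcon
  replace hZ0 : ∀ x ∈ Z', x ≠ 0 := fun x hx => hZ0 x (hZ' hx)
  replace hρ : ∀ x ∈ Z', (ρ x).1 = x := fun x hx => hρ x (hZ' hx)
  replace hr : ∀ x ∈ Z', r (g (ρ x)).1 < r x := fun x hx => hr x (hZ' hx)
  clear hZ' hcon
  clear Z
  obtain ⟨F, hF⟩ : ∃ F, F = Fintype.card ((Ed → ZMod 2) × ZMod 2) := ⟨_, rfl⟩
  have hF1 : 1 ≤ F := by
    rw [hF]
    exact Fintype.card_pos
  rw [← hF] at hA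
  let bad : A → Finset A := fun x =>
    {0, x} ∪ (Z' ∪ (Z'.image (fun z => x + z) ∪
      ((Finset.univ.filter fun y : A => 0 + (g (y, 0)).1 ∈ Z') ∪
      (Finset.univ.filter fun y : A => (g (ρ x)).1 + (g (y, 0)).1 ∈ Z'))))
  have hbad : ∀ x, (bad x).card ≤ 2 + (t + (t + (t * F + t * F))) := by
    intro x
    have b1 : ({0, x} : Finset A).card ≤ 2 := Finset.card_le_two
    have b2 : (Z'.image (fun z => x + z)).card ≤ t := hZc ▸ Finset.card_image_le
    have b3 := card_into hg Z' 0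
    have b4 := card_into hg Z' (g (ρ x)).1
    rw [hZc, ← hF] at b3 b4
    refine (Finset.card_union_le _ _).trans (Nat.add_le_add b1 ?_)
    refine (Finset.card_union_le _ _).trans (Nat.add_le_add hZc.le ?_)
    refine (Finset.card_union_le _ _).trans (Nat.add_le_add b2 ?_)
    exact (Finset.card_union_le _ _).trans (Nat.add_le_add b3 b4)
  let G : Finset (A × A) := (Z' ×ˢ Finset.univ).filter fun p => p.2 ∉ bad p.1
  have hG : ∀ x y, (x, y) ∈ G → x ∈ Z' ∧ ¬ Dg x y ∧ y ∉ Z' ∧ x + y ∉ Z' ∧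
      (g (y, 0)).1 ∉ Z' ∧ (g (ρ x)).1 + (g (y, 0)).1 ∉ Z' := by
    intro x y hxy
    obtain ⟨h1, h2⟩ := Finset.mem_filter.1 hxy
    have hx : x ∈ Z' := (Finset.mem_product.1 h1).1
    have h2' : y ∉ bad x := h2
    simp only [bad, Finset.mem_union, Finset.mem_insert, Finset.mem_singleton, not_or,
      Finset.mem_filter, Finset.mem_univ, true_and, zero_add, Finset.mem_image, not_exists,
      not_and] at h2'
    obtain ⟨⟨a1, a2⟩, a3, a4, a5, a6⟩ := h2'
    refine ⟨hx, ?_, a3, fun hmem => a4 (x + y) hmem (add_add_two x y), a5, a6⟩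
    rintro (h0 | h0 | h0)
    · exact hZ0 x hx h0
    · exact a1 h0
    · exact a2 h0.symm
  -- the special point of the line
  have hpt : ∀ x y z, (x, y) ∈ G → z ∈ ln x y → z ∈ Z' → z = x := by
    intro x y z hxy hz hzZ
    obtain ⟨-, -, h2, h3, -, -⟩ := hG x y hxy
    rcases mem_ln.1 hz with h' | h' | h'
    · exact h'
    · exact absurd (h' ▸ hzZ) h2
    · exact absurd (h' ▸ hzZ) h3
  let T : Finset (Finset A) := G.image fun p => ln p.1 p.2
  have hT : ∀ l, l ∈ T ↔ ∃ x y, (x, y) ∈ G ∧ l = ln x y := by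
    intro l
    constructor
    · intro hl
      obtain ⟨⟨x, y⟩, hxy, rfl⟩ := Finset.mem_image.1 hl
      exact ⟨x, y, hxy, rfl⟩
    · rintro ⟨x, y, hxy, rfl⟩
      exact Finset.mem_image.2 ⟨(x, y), hxy, rfl⟩
  have hdet : ∀ h ∈ 𝓗, ∀ h' ∈ 𝓗, (∀ l, l ∉ T → h l = h' l) → ∀ l ∈ T, h l = h' l := by
    intro h hh h' hh' hout
    have key : ∀ n x y, (x, y) ∈ G → r x < n → h (ln x y) = h' (ln x y) := by
      intro n
      induction n with
      | zero => intro x y _ hx; exact absurd hx (Nat.not_lt_zero _)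
      | succ n ih =>
        intro x y hxy hx
        obtain ⟨hxZ, hdg, h2, h3, h4, h5⟩ := hG x y hxy
        have hdet := Hm.det hg (hi h hh) (hi h' hh') (ρ x) (y, 0)
        have hρx : (ρ x).1 = x := hρ x hxZ
        rw [hρx] at hdet
        refine hdet hdg ?_
        by_cases hl : ln (g (ρ x)).1 (g (y, 0)).1 ∈ T
        · right
          obtain ⟨x2, y2, hxy2, hl2⟩ := (hT _).1 hl
          rw [hl2]
          refine ih x2 y2 hxy2 ?_
          have hx2 : x2 ∈ ln (g (ρ x)).1 (g (y, 0)).1 := by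
            rw [hl2]
            exact mem_ln.2 (Or.inl rfl)
          have hx2Z := (hG x2 y2 hxy2).1
          have hx2' : x2 = (g (ρ x)).1 := by
            rcases mem_ln.1 hx2 with h' | h' | h'
            · exact h'
            · exact absurd (h' ▸ hx2Z) h4
            · exact absurd (h' ▸ hx2Z) h5
          have := hr x hxZ
          rw [hx2']
          omega
        · exact Or.inr (hout _ hl)
    intro l hl
    obtain ⟨x, y, hxy, rfl⟩ := (hT l).1 hl
    exact key (r x + 1) x y hxy (Nat.lt_succ_self _)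
  have h2T := count_lines 𝓗 K hcard T hdet
  have hTK : 4 * T.card < t * Fintype.card A := by
    by_contra hcon
    exact absurd (hK T.card (not_lt.1 hcon)) (not_lt.2 h2T)
  -- lower bound for `T`
  have hG2 : G.card ≤ 2 * T.card := by
    refine Finset.card_le_mul_card_image G 2 ?_
    intro l hl
    obtain ⟨⟨x, y⟩, hxy, rfl⟩ := Finset.mem_image.1 hl
    refine (Finset.card_le_card (t := {(x, y), (x, x + y)}) ?_).trans Finset.card_le_two
    rintro ⟨x', y'⟩ hxy'
    obtain ⟨h1, h2⟩ := Finset.mem_filter.1 hxy'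
    have h2' : ln x' y' = ln x y := h2
    have hx' : x' = x := hpt x y x' hxy (by
      rw [← h2']
      exact mem_ln.2 (Or.inl rfl)) (hG x' y' h1).1
    subst hx'
    have hy' : y' ∈ ln x' y := by
      rw [← h2']
      exact mem_ln.2 (Or.inr (Or.inl rfl))
    have hy3 : y' ≠ x' := fun h' => (hG x' y' h1).2.2.1 (h' ▸ (hG x' y' h1).1)
    rcases mem_ln.1 hy' with h' | h' | h'
    · exact absurd h' hy3
    · rw [h']
      exact Finset.mem_insert_self _ _
    · rw [h']
      exact Finset.mem_insert_of_mem (Finset.mem_singleton_self _)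
  have hG3 : t * (Fintype.card A - (2 + (t + (t + (t * F + t * F))))) ≤ G.card := by
    have h1 : G = Z'.biUnion fun x => (Finset.univ \ bad x).image fun y => (x, y) := by
      ext ⟨x, y⟩
      simp [G]
    rw [h1, Finset.card_biUnion]
    · have h2 : ∀ x ∈ Z', Fintype.card A - (2 + (t + (t + (t * F + t * F)))) ≤
          ((Finset.univ \ bad x).image fun y => (x, y)).card := by
        intro x _
        rw [Finset.card_image_of_injective _ (fun a b hab => (Prod.mk.inj hab).2),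
          Finset.card_sdiff_of_subset (Finset.subset_univ _), Finset.card_univ]
        have := hbad x
        omega
      have h3 := Finset.card_nsmul_le_sum Z' _ _ h2
      rwa [hZc, smul_eq_mul] at h3
    · intro x _ x' _ hne
      rw [Function.onFun, Finset.disjoint_left]
      intro p hp hp'
      obtain ⟨y, -, rfl⟩ := Finset.mem_image.1 hp
      obtain ⟨y', -, h4⟩ := Finset.mem_image.1 hp'
      exact hne (Prod.mk.inj h4).1.symm
  have htF : t ≤ t * F := Nat.le_mul_of_pos_right t hF1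
  obtain ⟨w, hw⟩ : ∃ w, w = t * F := ⟨_, rfl⟩
  rw [← hw] at hG3 hA htF
  have h5 : Fintype.card A ≤ 2 * (Fintype.card A - (2 + (t + (t + (w + w))))) := by omega
  have h6 : t * Fintype.card A ≤ t * (2 * (Fintype.card A - (2 + (t + (t + (w + w)))))) :=
    Nat.mul_le_mul_left t h5
  have h7 : t * (2 * (Fintype.card A - (2 + (t + (t + (w + w)))))) =
      2 * (t * (Fintype.card A - (2 + (t + (t + (w + w)))))) := by ring
  omega

/-- The components in `A` are fixed. -/
theorem fix_A {g : Q2 Ed A → Q2 Ed A} (hg : Function.Injective g)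
    (𝓗 : Finset (Finset A → ZMod 2)) (K t : ℕ)
    (hcard : Fintype.card (Finset A → ZMod 2) ≤ 𝓗.card * K) (hne : 𝓗.Nonempty)
    (hi : ∀ h ∈ 𝓗, Hm st e o bs h τ τ' g)
    (hA : 4 + 8 * (t * Fintype.card ((Ed → ZMod 2) × ZMod 2)) ≤ Fintype.card A)
    (hK : ∀ m, t * Fintype.card A ≤ 4 * m → K < 2 ^ m) (R : Q2 Ed A) : (g R).1 = R.1 := by
  classical
  let X : Finset A := Finset.univ.filter fun x => x ≠ 0 ∧ ∃ R : Q2 Ed A, R.1 = x ∧ (g R).1 ≠ x
  have hψ : ∀ x, ∃ R : Q2 Ed A, R.1 = x ∧ (x ∈ X → (g R).1 ≠ x) := by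
    intro x
    by_cases hx : x ∈ X
    · obtain ⟨-, R, hR1, hR2⟩ := (Finset.mem_filter.1 hx).2
      exact ⟨R, hR1, fun _ => hR2⟩
    · exact ⟨(x, 0), rfl, fun h => absurd h hx⟩
  choose ρ hρ1 hρ2 using hψ
  let r : A → ℕ := fun x => (Fintype.equivFin A x : ℕ)
  let r' : A → ℕ := fun x => Fintype.card A - (Fintype.equivFin A x : ℕ)
  have hr : ∀ x y, r x = r y → x = y := fun x y h =>
    (Fintype.equivFin A).injective (Fin.ext h)
  have hr' : ∀ x, r x < Fintype.card A := fun x => (Fintype.equivFin A x).2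
  have h1 := few_ranked hg 𝓗 K t hcard hi hA hK (X.filter fun x => r (g (ρ x)).1 < r x)
    (fun x hx => (Finset.mem_filter.1 (Finset.mem_filter.1 hx).1).2.1) ρ (fun x _ => hρ1 x) r
    fun x hx => (Finset.mem_filter.1 hx).2
  have h2 := few_ranked hg 𝓗 K t hcard hi hA hK (X.filter fun x => r x < r (g (ρ x)).1)
    (fun x hx => (Finset.mem_filter.1 (Finset.mem_filter.1 hx).1).2.1) ρ (fun x _ => hρ1 x) r'
    (by
      intro x hx
      have h3 := (Finset.mem_filter.1 hx).2
      have h4 := hr' (g (ρ x)).1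
      show Fintype.card A - r (g (ρ x)).1 < Fintype.card A - r x
      omega)
  have h3 : X ⊆ (X.filter fun x => r (g (ρ x)).1 < r x) ∪
      (X.filter fun x => r x < r (g (ρ x)).1) := by
    intro x hx
    have hne : r (g (ρ x)).1 ≠ r x := fun h => hρ2 x hx (hr _ _ h)
    rcases lt_or_gt_of_ne hne with h | h
    · exact Finset.mem_union_left _ (Finset.mem_filter.2 ⟨hx, h⟩)
    · exact Finset.mem_union_right _ (Finset.mem_filter.2 ⟨hx, h⟩)
  have h4 := (Finset.card_le_card h3).trans (Finset.card_union_le _ _)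
  have hF1 : 1 ≤ Fintype.card ((Ed → ZMod 2) × ZMod 2) := Fintype.card_pos
  have htF : t ≤ t * Fintype.card ((Ed → ZMod 2) × ZMod 2) := Nat.le_mul_of_pos_right t hF1
  have hfix : ∀ S : Q2 Ed A, S.1 ≠ 0 → S.1 ∉ X → (g S).1 = S.1 := by
    intro S hS0 hS
    by_contra hcon
    exact hS (Finset.mem_filter.2 ⟨Finset.mem_univ _, hS0, S, rfl, hcon⟩)
  obtain ⟨x, hx⟩ : ∃ x, x ∉ {0} ∪ (X ∪ ({R.1} ∪ X.image (fun z => R.1 + z))) := by
    by_contra hcon
    push Not at hcon
    have h5 := Finset.card_le_card (fun x _ => hcon x :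
      (Finset.univ : Finset A) ⊆ {0} ∪ (X ∪ ({R.1} ∪ X.image (fun z => R.1 + z))))
    have h6 : (X.image (fun z => R.1 + z)).card ≤ X.card := Finset.card_image_le
    have h7 := Finset.card_union_le {0} (X ∪ ({R.1} ∪ X.image (fun z => R.1 + z)))
    have h8 := Finset.card_union_le X ({R.1} ∪ X.image (fun z => R.1 + z))
    have h9 := Finset.card_union_le {R.1} (X.image (fun z => R.1 + z))
    rw [Finset.card_univ] at h5
    rw [Finset.card_singleton] at h7 h9
    omega
  simp only [Finset.mem_union, Finset.mem_singleton, not_or, Finset.mem_image, not_exists,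
    not_and] at hx
  obtain ⟨hx0, hxX, hxR, hx2⟩ := hx
  obtain ⟨h, hh⟩ := hne
  have h5 := (hi h hh).2 (x, 0) (ops st e o bs h τ (x, 0) R)
  rw [ops_ops] at h5
  have h6 : (g R).1 = (g (x, 0)).1 + (g (ops st e o bs h τ (x, 0) R)).1 := by
    conv_lhs => rw [h5]
    rfl
  have h7 : (ops st e o bs h τ (x, 0) R).1 = x + R.1 := rfl
  rw [h6, hfix (x, 0) hx0 hxX, hfix _ (by
    rw [h7]
    intro h8
    exact hxR (eq_of_add_eq_zero_two h8)) (by
    rw [h7]
    intro h8
    apply hx2 _ h8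
    rw [add_comm x, add_add_two]), h7, add_add_two]

end

end Pool.Agent.W877.ST
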