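import Pool.Agent.W877.ST.Loop

/-!
# The WL method does not distinguish the twisted block graphs
-/

set_option autoImplicit false
set_option linter.unusedSectionVars false

namespace Pool.Agent.W877.ST

open Finset Pool.Agent.W185.SRG Pool.Agent.W185.LSQ

section

variable {N : ℕ} {Ed A : Type} [Fintype Ed] [DecidableEq Ed]
  [AddCommGroup A] [Module (ZMod 2) A] [Fintype A] [DecidableEq A]
  {st : Ed → Fin N × Fin N} {e : Fin N → A} {o : A} {bs : Fin N} {h : Finset A → ZMod 2}
  {τ τ' : ZMod 2}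

theorem mu_isM {γ : ZMod 2} {b : Fin N} {M : A →ₗ[ZMod 2] (Ed → ZMod 2)}
    (hM : IsM st e bs γ b M) (l : Finset A) (w : A) :
    mu st e o l w (M w) = (if l = t2 e o bs ∧ w = e bs then γ else 0) +
      (if l = t2 e o b ∧ w = e b then γ else 0) := by
  unfold mu
  have h1 : (∑ ε, if l = t1 st e ε ∧ w = e (st ε).1 + e (st ε).2 then M w ε else 0) = 0 := by
    refine Finset.sum_eq_zero fun ε _ => ?_
    by_cases hc : l = t1 st e ε ∧ w = e (st ε).1 + e (st ε).2
    · rw [if_pos hc, hc.2, hM.1 ε]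
    · rw [if_neg hc]
  have h2 : (∑ i, if l = t2 e o i ∧ w = e i then inc st i (M w) else 0) =
      (∑ i, if i = bs then (if l = t2 e o i ∧ w = e i then γ else 0) else 0) +
      ∑ i, if i = b then (if l = t2 e o i ∧ w = e i then γ else 0) else 0 := by
    rw [← Finset.sum_add_distrib]
    refine Finset.sum_congr rfl fun i _ => ?_
    by_cases hc : l = t2 e o i ∧ w = e i
    · rw [if_pos hc, if_pos hc, hc.2, hM.2 i]
    · rw [if_neg hc, if_neg hc]
      simp
  rw [h1, h2, zero_add]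
  simp

theorem mu_three {x y : A} (hd : ¬ Dg x y) {p : A} {l : Finset A} (hp : p ∈ l) (γ : ZMod 2) :
    (if ln x y = l ∧ x = p then γ else 0) + (if ln x y = l ∧ y = p then γ else 0) +
      (if ln x y = l ∧ x + y = p then γ else 0) = if ln x y = l then γ else 0 := by
  by_cases hl : ln x y = l
  · simp only [hl, true_and, if_true]
    rw [← hl] at hp
    have hx : x ≠ 0 := fun h => hd (Or.inl h)
    have hy : y ≠ 0 := fun h => hd (Or.inr (Or.inl h))
    have hxy : x ≠ y := fun h => hd (Or.inr (Or.inr h))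
    have h3 : x ≠ x + y := fun h => hy (left_eq_add.1 h)
    have h4 : y ≠ x + y := fun h => hx (right_eq_add.1 h)
    rcases mem_ln.1 hp with rfl | rfl | rfl
    · rw [if_pos rfl, if_neg hxy.symm, if_neg h3.symm, add_zero, add_zero]
    · rw [if_pos rfl, if_neg hxy, if_neg h4.symm, add_zero, zero_add]
    · rw [if_pos rfl, if_neg h3, if_neg h4, zero_add, zero_add]
  · simp [hl]

theorem mem_t2 (e : Fin N → A) (o : A) (i : Fin N) : e i ∈ t2 e o i :=
  mem_ln.2 (Or.inl rfl)

theorem msum_isM {γ : ZMod 2} {b : Fin N} {M : A →ₗ[ZMod 2] (Ed → ZMod 2)}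
    (hM : IsM st e bs γ b M) {x y : A} (hd : ¬ Dg x y) :
    msum st e o x y (M x) (M y) = (if ln x y = t2 e o bs then γ else 0) +
      (if ln x y = t2 e o b then γ else 0) := by
  unfold msum
  rw [← map_add, mu_isM hM, mu_isM hM, mu_isM hM, ← mu_three hd (mem_t2 e o bs) γ,
    ← mu_three hd (mem_t2 e o b) γ]
  abel

theorem msum_add_add (x y : A) (c d c' d' : Ed → ZMod 2) :
    msum st e o x y (c + c') (d + d') = msum st e o x y c d + msum st e o x y c' d' := by
  unfold msum
  rw [mu_add, mu_add, show c + c' + (d + d') = (c + d) + (c' + d') by abel, mu_add]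
  abel

theorem FS_isM {b : Fin N} {M : A →ₗ[ZMod 2] (Ed → ZMod 2)}
    (hM : IsM st e bs (τ + τ') b M) (x y : A) (hxy : e b ∉ ln x y) (c d : Ed → ZMod 2) :
    FS st e o bs h τ' x y (c + M x) (d + M y) = FS st e o bs h τ x y c d := by
  unfold FS
  by_cases hd : Dg x y
  · rw [if_pos hd, if_pos hd]
  · rw [if_neg hd, if_neg hd, msum_add_add, msum_isM hM hd]
    have hb : ln x y ≠ t2 e o b := by
      intro h'
      apply hxy
      rw [h']
      exact mem_t2 e o b
    rw [if_neg hb, add_zero]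
    by_cases h' : ln x y = t2 e o bs
    · rw [if_pos h', if_pos h', if_pos h']
      calc h (ln x y) + (msum st e o x y c d + (τ + τ')) + τ' =
          h (ln x y) + msum st e o x y c d + τ + (τ' + τ') := by abel
        _ = _ := by rw [z2_self, add_zero]
    · simp only [if_neg h', add_zero]

theorem ops_sh {b : Fin N} {M : A →ₗ[ZMod 2] (Ed → ZMod 2)}
    (hM : IsM st e bs (τ + τ') b M) (u v : Q2 Ed A) (hb : e b ∉ ln u.1 v.1) :
    ops st e o bs h τ' (sh M u) (sh M v) = sh M (ops st e o bs h τ u v) := by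
  refine Prod.ext rfl (Prod.ext ?_ ?_)
  · show u.2.1 + M u.1 + (v.2.1 + M v.1) = u.2.1 + v.2.1 + M (u.1 + v.1)
    rw [map_add]
    abel
  · show u.2.2 + v.2.2 + FS st e o bs h τ' u.1 v.1 (u.2.1 + M u.1) (v.2.1 + M v.1) =
      u.2.2 + v.2.2 + FS st e o bs h τ u.1 v.1 u.2.1 v.2.1
    rw [FS_isM hM _ _ hb]

theorem sh_zero (M : A →ₗ[ZMod 2] (Ed → ZMod 2)) : sh M (0 : Q2 Ed A) = 0 := by
  refine Prod.ext rfl (Prod.ext ?_ rfl)
  show (0 : Ed → ZMod 2) + M 0 = 0
  rw [map_zero, add_zero]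

theorem sh_ne_zero (M : A →ₗ[ZMod 2] (Ed → ZMod 2)) {u : Q2 Ed A} (hu : u ≠ 0) :
    sh M u ≠ 0 := by
  intro h'
  apply hu
  rw [← sh_sh M u, h', sh_zero]

/-- The shear of the points. -/
def shP (M : A →ₗ[ZMod 2] (Ed → ZMod 2)) : Pt Ed A ↪ Pt Ed A :=
  ⟨fun q => ⟨sh M q.1, sh_ne_zero M q.2⟩, fun _ _ hpq =>
    Subtype.ext (sh_inj M (congrArg Subtype.val hpq))⟩

theorem shP_shP (M : A →ₗ[ZMod 2] (Ed → ZMod 2)) (q : Pt Ed A) : shP M (shP M q) = q :=
  Subtype.ext (sh_sh M q.1)

/-- The shear of the triples. -/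
def mv (M : A →ₗ[ZMod 2] (Ed → ZMod 2)) (b : Finset (Pt Ed A)) : Finset (Pt Ed A) :=
  b.map (shP M)

theorem mv_mv (M : A →ₗ[ZMod 2] (Ed → ZMod 2)) (b : Finset (Pt Ed A)) : mv M (mv M b) = b := by
  unfold mv
  rw [Finset.map_map]
  have : (shP M).trans (shP M) = Function.Embedding.refl _ := by
    ext1 q
    exact shP_shP M q
  rw [this, Finset.map_refl]

theorem mem_mv {M : A →ₗ[ZMod 2] (Ed → ZMod 2)} {b : Finset (Pt Ed A)} {q : Pt Ed A} :
    q ∈ mv M b ↔ shP M q ∈ b := by
  unfold mv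
  rw [Finset.mem_map]
  constructor
  · rintro ⟨p, hp, rfl⟩
    rwa [shP_shP]
  · intro hq
    exact ⟨shP M q, hq, shP_shP M q⟩

/-- The components in `A` of the points of a triple. -/
def cmp (b : Finset (Pt Ed A)) : Finset A := b.image fun q => q.1.1

theorem cmp_mv (M : A →ₗ[ZMod 2] (Ed → ZMod 2)) (b : Finset (Pt Ed A)) :
    cmp (mv M b) = cmp b := by
  unfold cmp mv
  rw [Finset.map_eq_image, Finset.image_image]
  rfl

theorem cmp_blk {b : Finset (Pt Ed A)} {u v : Q2 Ed A}
    (hb : b.map inj = blk st e o bs h τ u v) : cmp b = ln u.1 v.1 := by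
  have h1 : cmp b = (b.map inj).image Prod.fst := by
    unfold cmp
    rw [Finset.map_eq_image, Finset.image_image]
    rfl
  rw [h1, hb]
  unfold blk ln
  rw [Finset.image_insert, Finset.image_insert, Finset.image_singleton]
  rfl

theorem cmp_ln {b : Finset (Pt Ed A)} (hb : b ∈ blocks st e o bs h τ) :
    ∃ x y, cmp b = ln x y := by
  obtain ⟨u, v, -, -, -, h1⟩ := mem_blocks.1 hb
  exact ⟨u.1, v.1, cmp_blk h1⟩

theorem mv_mem {d : Fin N} {M : A →ₗ[ZMod 2] (Ed → ZMod 2)} (hM : IsM st e bs (τ + τ') d M)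
    {b : Finset (Pt Ed A)} (hb : b ∈ blocks st e o bs h τ) (hd : e d ∉ cmp b) :
    mv M b ∈ blocks st e o bs h τ' := by
  obtain ⟨u, v, hu, hv, huv, h1⟩ := mem_blocks.1 hb
  rw [cmp_blk h1] at hd
  refine mem_blocks.2 ⟨sh M u, sh M v, sh_ne_zero M hu, sh_ne_zero M hv,
    fun h' => huv (sh_inj M h'), ?_⟩
  have h2 : (mv M b).map inj = (b.map inj).map ⟨sh M, sh_inj M⟩ := by
    unfold mv
    rw [Finset.map_map, Finset.map_map]
    rfl
  rw [h2, h1]
  unfold blk
  rw [Finset.map_insert, Finset.map_insert, Finset.map_singleton]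
  show ({sh M u, sh M v, sh M (ops st e o bs h τ u v)} : Finset (Q2 Ed A)) = _
  rw [ops_sh hM u v hd]

/-- The subspace spanned by the components. -/
def sp {ι : Type} (T : ι → Finset A) : Submodule (ZMod 2) A :=
  Submodule.span (ZMod 2) {a | ∃ i, a ∈ T i}

theorem mem_sp {ι : Type} {T : ι → Finset A} {i : ι} {a : A} (ha : a ∈ T i) : a ∈ sp T :=
  Submodule.subset_span ⟨i, ha⟩

theorem finrank_sp {ι : Type} [Fintype ι] (T : ι → Finset A) (hT : ∀ i, ∃ x y, T i = ln x y) :
    Module.finrank (ZMod 2) (sp T) ≤ 2 * Fintype.card ι := by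
  choose U V hUV using hT
  have h1 : sp T ≤ Submodule.span (ZMod 2) (Set.range (Sum.elim U V)) := by
    unfold sp
    rw [Submodule.span_le]
    rintro a ⟨i, hi⟩
    rw [hUV i] at hi
    have hU : U i ∈ Submodule.span (ZMod 2) (Set.range (Sum.elim U V)) :=
      Submodule.subset_span ⟨Sum.inl i, rfl⟩
    have hV : V i ∈ Submodule.span (ZMod 2) (Set.range (Sum.elim U V)) :=
      Submodule.subset_span ⟨Sum.inr i, rfl⟩
    rcases mem_ln.1 hi with rfl | rfl | rfl
    · exact hU
    · exact hV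
    · exact Submodule.add_mem _ hU hV
  have h2 := finrank_range_le_card (R := ZMod 2) (Sum.elim U V)
  rw [Fintype.card_sum] at h2
  unfold Set.finrank at h2
  have h3 := Submodule.finrank_mono h1
  omega

/-- The block graph of the triple system. -/
noncomputable abbrev BG (st : Ed → Fin N × Fin N) (e : Fin N → A) (o : A) (bs : Fin N)
    (h : Finset A → ZMod 2) (τ : ZMod 2) : SimpleGraph (blocks st e o bs h τ) :=
  blockGraph (blocks st e o bs h τ)

/-- The relation between tuples kept by the WL method. -/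
def GoodS {k : ℕ} (γ : ZMod 2) (S : Fin k → blocks st e o bs h τ)
    (S' : Fin k → blocks st e o bs h τ') : Prop :=
  ∃ (b : Fin N) (M : A →ₗ[ZMod 2] (Ed → ZMod 2)), IsM st e bs γ b M ∧
    (∀ i, (S' i).1 = mv M (S i).1) ∧ Big st (blocked e (sp fun i => cmp (S i).1)) b

theorem isoType_goodS {k : ℕ} {γ : ZMod 2} {S : Fin k → blocks st e o bs h τ}
    {S' : Fin k → blocks st e o bs h τ'} (hg : GoodS γ S S') :
    isoType (BG st e o bs h τ) k S = isoType (BG st e o bs h τ') k S' := by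
  obtain ⟨b, M, hM, hS, hb⟩ := hg
  have heq : ∀ i j, (S i = S j) ↔ (S' i = S' j) := by
    intro i j
    rw [Subtype.ext_iff, Subtype.ext_iff, hS i, hS j]
    refine ⟨fun h' => by rw [h'], fun h' => ?_⟩
    rw [← mv_mv M (S i).1, h', mv_mv]
  unfold isoType
  refine Prod.ext ?_ ?_
  · funext i j
    exact propext (heq i j)
  · funext i j
    show (S i ≠ S j ∧ ∃ x, x ∈ (S i).1 ∧ x ∈ (S j).1) =
      (S' i ≠ S' j ∧ ∃ x, x ∈ (S' i).1 ∧ x ∈ (S' j).1)
    refine propext (and_congr (not_congr (heq i j)) ?_)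
    rw [hS i, hS j]
    constructor
    · rintro ⟨x, h1, h2⟩
      refine ⟨shP M x, mem_mv.2 ?_, mem_mv.2 ?_⟩
      · rwa [shP_shP]
      · rwa [shP_shP]
    · rintro ⟨x, h1, h2⟩
      exact ⟨shP M x, mem_mv.1 h1, mem_mv.1 h2⟩

/-- The bijection between the blocks given by shears which depend on the components. -/
def mvEquiv (Mf : Finset A → (A →ₗ[ZMod 2] (Ed → ZMod 2)))
    (h1 : ∀ b ∈ blocks st e o bs h τ, mv (Mf (cmp b)) b ∈ blocks st e o bs h τ')
    (h2 : ∀ b ∈ blocks st e o bs h τ', mv (Mf (cmp b)) b ∈ blocks st e o bs h τ) :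
    blocks st e o bs h τ ≃ blocks st e o bs h τ' where
  toFun b := ⟨mv (Mf (cmp b.1)) b.1, h1 b.1 b.2⟩
  invFun b := ⟨mv (Mf (cmp b.1)) b.1, h2 b.1 b.2⟩
  left_inv b := by
    refine Subtype.ext ?_
    show mv (Mf (cmp (mv (Mf (cmp b.1)) b.1))) (mv (Mf (cmp b.1)) b.1) = b.1
    rw [cmp_mv, mv_mv]
  right_inv b := by
    refine Subtype.ext ?_
    show mv (Mf (cmp (mv (Mf (cmp b.1)) b.1))) (mv (Mf (cmp b.1)) b.1) = b.1
    rw [cmp_mv, mv_mv]

/-- The bijection between the tuples of blocks. -/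
def mvTuple {k : ℕ} (Mf : (Fin k → Finset A) → (A →ₗ[ZMod 2] (Ed → ZMod 2)))
    (h1 : ∀ (S : Fin k → blocks st e o bs h τ) (i : Fin k),
      mv (Mf fun j => cmp (S j).1) (S i).1 ∈ blocks st e o bs h τ')
    (h2 : ∀ (S : Fin k → blocks st e o bs h τ') (i : Fin k),
      mv (Mf fun j => cmp (S j).1) (S i).1 ∈ blocks st e o bs h τ) :
    (Fin k → blocks st e o bs h τ) ≃ (Fin k → blocks st e o bs h τ') where
  toFun S := fun i => ⟨mv (Mf fun j => cmp (S j).1) (S i).1, h1 S i⟩
  invFun S := fun i => ⟨mv (Mf fun j => cmp (S j).1) (S i).1, h2 S i⟩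
  left_inv S := by
    funext i
    refine Subtype.ext ?_
    show mv (Mf fun j => cmp (mv (Mf fun j => cmp (S j).1) (S j).1))
      (mv (Mf fun j => cmp (S j).1) (S i).1) = (S i).1
    simp only [cmp_mv]
    rw [mv_mv]
  right_inv S := by
    funext i
    refine Subtype.ext ?_
    show mv (Mf fun j => cmp (mv (Mf fun j => cmp (S j).1) (S j).1))
      (mv (Mf fun j => cmp (S j).1) (S i).1) = (S i).1
    simp only [cmp_mv]
    rw [mv_mv]

theorem map_univ_equiv' {V W C : Type} [Fintype V] [Fintype W] (β : V ≃ W) (f : V → C)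
    (g : W → C) (hfg : ∀ x, f x = g (β x)) :
    (Finset.univ : Finset V).val.map f = (Finset.univ : Finset W).val.map g := by
  have h1 : f = g ∘ β := funext hfg
  rw [h1, ← Multiset.map_map]
  congr 1
  have h2 := congrArg Finset.val (Finset.map_univ_equiv β)
  rw [Finset.map_val] at h2
  exact h2

theorem sp_mono {ι κ : Type} {T : ι → Finset A} {T' : κ → Finset A}
    (hT : ∀ i, ∃ j, T i ⊆ T' j) : sp T ≤ sp T' := by
  refine Submodule.span_mono ?_
  rintro a ⟨i, hi⟩
  obtain ⟨j, hj⟩ := hT i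
  exact ⟨j, hj hi⟩

theorem wl_goodS {k q : ℕ} (hrob : Robust st q) (hli : LinearIndependent (ZMod 2) e)
    (hq : 2 * k + 2 ≤ q) (t : ℕ) :
    ∀ (S : Fin k → blocks st e o bs h τ) (S' : Fin k → blocks st e o bs h τ'),
      GoodS (τ + τ') S S' →
      wl (BG st e o bs h τ) k t S = wl (BG st e o bs h τ') k t S' := by
  induction t with
  | zero =>
    intro S S' hg
    exact isoType_goodS hg
  | succ t ih =>
    intro S S' hg
    refine Prod.ext (ih S S' hg) ?_
    obtain ⟨b, M, hM, hS, hb⟩ := hg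
    have hex : ∀ T : Finset A, (∃ x y, T = ln x y) →
        ∃ (b' : Fin N) (M' : A →ₗ[ZMod 2] (Ed → ZMod 2)),
        IsM st e bs (τ + τ') b' M' ∧ (∀ x ∈ sp (fun i => cmp (S i).1), M' x = M x) ∧
        Big st (blocked e (sp fun j : Option (Fin k) => j.elim T fun i => cmp (S i).1)) b' := by
      intro T hT
      refine extend hrob hli hM _ _ (sp_mono fun i => ⟨some i, Finset.Subset.refl _⟩) hb ?_
      refine (finrank_sp _ ?_).trans ?_
      · rintro (_ | i)
        · exact hT
        · exact cmp_ln (S i).2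
      · rw [Fintype.card_option, Fintype.card_fin]
        omega
    have : Nonempty (Fin N) := ⟨bs⟩
    choose! b' M' hM' hagree hb' using hex
    have hfree : ∀ T : Finset A, (∃ x y, T = ln x y) → e (b' T) ∉ T := by
      intro T hT hmem
      exact (hb' T hT).1 (mem_blocked.2 (mem_sp (i := none) hmem))
    have hcomm : τ' + τ = τ + τ' := add_comm _ _
    refine map_univ_equiv' (mvEquiv M' (fun c hc => mv_mem (hM' _ (cmp_ln hc)) hc
      (hfree _ (cmp_ln hc))) (fun c hc => mv_mem (by rw [hcomm]; exact hM' _ (cmp_ln hc)) hc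
      (hfree _ (cmp_ln hc)))) _ _ fun x => ?_
    funext i
    refine ih _ _ ?_
    have hx := cmp_ln x.2
    refine ⟨b' (cmp x.1), M' (cmp x.1), hM' _ hx, ?_, ?_⟩
    · intro j
      by_cases hj : j = i
      · subst hj
        rw [Function.update_self, Function.update_self]
        rfl
      · rw [Function.update_of_ne hj, Function.update_of_ne hj, hS j]
        ext p
        rw [mem_mv, mem_mv]
        by_cases hp : p.1.1 ∈ cmp (S j).1
        · have hMM : M' (cmp x.1) p.1.1 = M p.1.1 := hagree _ hx _ (mem_sp (i := j) hp)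
          have h5 : shP (M' (cmp x.1)) p = shP M p := by
            refine Subtype.ext ?_
            show sh (M' (cmp x.1)) p.1 = sh M p.1
            unfold Pool.Agent.W185.LSQ.sh
            rw [hMM]
          rw [h5]
        · have h6 : ∀ M0 : A →ₗ[ZMod 2] (Ed → ZMod 2), shP M0 p ∉ (S j).1 := by
            intro M0 hmem
            exact hp (Finset.mem_image.2 ⟨shP M0 p, hmem, rfl⟩)
          exact iff_of_false (h6 _) (h6 _)
    · refine (hb' _ hx).mono (blocked_mono (sp_mono ?_))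
      intro j
      by_cases hj : j = i
      · subst hj
        refine ⟨none, ?_⟩
        simp only [Function.update_self]
        exact Finset.Subset.refl _
      · refine ⟨some j, ?_⟩
        rw [Function.update_of_ne hj]
        exact Finset.Subset.refl _

theorem wlEquivalent_BG {k q : ℕ} (hbs : Big st ∅ bs) (hrob : Robust st q)
    (hli : LinearIndependent (ZMod 2) e) (hq : 2 * k + 2 ≤ q) :
    WLEquivalent k (BG st e o bs h τ) (BG st e o bs h τ') := by
  have hex : ∀ T : Fin k → Finset A, (∀ i, ∃ x y, T i = ln x y) →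
      ∃ (b' : Fin N) (M' : A →ₗ[ZMod 2] (Ed → ZMod 2)),
      IsM st e bs (τ + τ') b' M' ∧
      (∀ x ∈ (⊥ : Submodule (ZMod 2) A), M' x = (0 : A →ₗ[ZMod 2] (Ed → ZMod 2)) x) ∧
      Big st (blocked e (sp T)) b' := by
    intro T hT
    refine extend hrob hli (isM_zero st e bs (τ + τ')) ⊥ _ bot_le ?_ ?_
    · have h0 : blocked e (⊥ : Submodule (ZMod 2) A) = ∅ := by
        rw [Finset.eq_empty_iff_forall_notMem]
        intro b hb
        rw [mem_blocked, Submodule.mem_bot] at hb
        exact hli.ne_zero b hb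
      rw [h0]
      exact hbs
    · refine (finrank_sp _ hT).trans ?_
      rw [Fintype.card_fin]
      omega
  have : Nonempty (Fin N) := ⟨bs⟩
  choose! b' M' hM' _ hb' using hex
  have hfree : ∀ T : Fin k → Finset A, (∀ i, ∃ x y, T i = ln x y) → ∀ i, e (b' T) ∉ T i := by
    intro T hT i hmem
    exact (hb' T hT).1 (mem_blocked.2 (mem_sp (i := i) hmem))
  have hcomm : τ' + τ = τ + τ' := add_comm _ _
  refine ⟨mvTuple M' (fun S i => mv_mem (hM' _ fun j => cmp_ln (S j).2) (S i).2
    (hfree _ (fun j => cmp_ln (S j).2) i)) (fun S i => mv_mem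
    (by rw [hcomm]; exact hM' _ fun j => cmp_ln (S j).2) (S i).2
    (hfree _ (fun j => cmp_ln (S j).2) i)), fun t S => wl_goodS hrob hli hq t S _ ?_⟩
  exact ⟨b' _, M' _, hM' _ fun j => cmp_ln (S j).2, fun i => rfl,
    hb' _ fun j => cmp_ln (S j).2⟩

end

end Pool.Agent.W877.ST
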